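import Pool.Agent.U106.OX.Rays

set_option autoImplicit false

/-!
Billiards in convex polygons: the decomposition of the phase space for the ideal of the sets whose
slices are meagre for almost every direction.
-/

namespace Pool.Agent.U106.OX

open Complex Set MeasureTheory Filter Topology Pool.Agent.W780.PG Pool.Agent.W780.BB
  Pool.Agent.TH103.BL Pool.Agent.N557.BP Pool.Agent.U106.BI Pool.Agent.U106.OI

open scoped Real ComplexConjugate

variable {n : ℕ} {p : Fin (n + 3) → ℂ}

/-- For almost every direction the slice of `A` is meagre. -/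
def Small (p : Fin (n + 3) → ℂ) (A : Set (ℂ × ℝ)) : Prop :=
  ∀ᵐ θ : ℝ, IsMeagre {z : ℂ | z ∈ region p ∧ (z, θ) ∈ A}

theorem small_iff {A : Set (ℂ × ℝ)} :
    Small p A ↔ ∀ᵐ θ : ℝ, ∀ᶠ z : ℂ in residual ℂ, z ∈ region p → (z, θ) ∉ A := by
  unfold Small IsMeagre
  refine eventually_congr (Eventually.of_forall fun θ => ?_)
  constructor
  · intro h
    filter_upwards [h] with z hz h1 h2
    exact hz ⟨h1, h2⟩
  · intro h
    filter_upwards [h] with z hz
    rintro ⟨h1, h2⟩
    exact hz h1 h2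

theorem fx_res {A : Set (ℂ × ℝ)} {i : Fin (n + 3)} {θ : ℝ} :
    θ ∈ FX p (residual ℂ) (ind A) {1} i ↔ ∃ r : ℝ, 0 < r ∧
      ∀ᶠ z : ℂ in residual ℂ, z ∈ reg p → ‖z - p i‖ < r → (z, θ) ∈ A := by
  rw [fx_iff]
  simp only [mem_one]

theorem big_vertex (hp : IsConvexPolygon p) (hirr : ∀ i, Irrational (ang p i / π))
    {A : Set (ℂ × ℝ)} (hA : MeasurableSet A) (hI : IsInvariant p A) (hbig : ¬ Small p A) :
    ∃ i, ∀ᵐ θ : ℝ, θ ∈ FX p (residual ℂ) (ind A) {1} i := by
  have hrr := region_eq hp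
  have hm : Measurable (ind A) := measurable_const.indicator hA
  refine vertex_of_open hp hirr (good_residual hp) (ind_inv hI)
    (ms_residual hm (measurableSet_singleton (1 : ℝ))) ?_
  intro h
  apply hbig
  rw [small_iff]
  filter_upwards [h] with θ hθ
  have hs : MeasurableSet {z : ℂ | (z, θ) ∈ A} := measurable_prodMk_right hA
  obtain ⟨U, hU, hUs⟩ := hs.residualEq_isOpen
  have h1 : U ∩ reg p = ∅ := by
    by_contra hne
    obtain ⟨z0, hz0⟩ := nonempty_iff_ne_empty.2 hne
    obtain ⟨ρ, hρ, hball⟩ := Metric.isOpen_iff.1 hU z0 hz0.1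
    refine hθ ⟨z0, hz0.2, ρ, hρ, ?_⟩
    filter_upwards [hUs.mem_iff] with z hz _ h2
    exact mem_one.2 (hz.2 (hball (by rw [mem_ball_iff_norm]; exact h2)))
  filter_upwards [hUs.mem_iff] with z hz h2 h3
  have : z ∈ U ∩ reg p := ⟨hz.1 h3, by rw [← hrr]; exact h2⟩
  rw [h1] at this
  exact this

theorem fx_not_small (hp : IsConvexPolygon p) {A B : Set (ℂ × ℝ)} {i : Fin (n + 3)}
    (h1 : ∀ᵐ θ : ℝ, θ ∈ FX p (residual ℂ) (ind A) {1} i)
    (h2 : ∀ᵐ θ : ℝ, θ ∈ FX p (residual ℂ) (ind B) {1} i) : (A ∩ B).Nonempty := by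
  obtain ⟨θ, h3, h4⟩ := (h1.and h2).exists
  rw [fx_res] at h3 h4
  obtain ⟨r1, hr1, ha⟩ := h3
  obtain ⟨r2, hr2, hb⟩ := h4
  obtain ⟨z0, hz0, hz1⟩ := near_vertex hp i (lt_min hr1 hr2)
  have hev : ∀ᶠ z in 𝓝 z0, z ∈ reg p ∧ ‖z - p i‖ < min r1 r2 := by
    have c1 : ∀ᶠ z in 𝓝 z0, z ∈ reg p := (reg_open hp).mem_nhds hz0
    have c2 : ∀ᶠ z in 𝓝 z0, ‖z - p i‖ < min r1 r2 := by
      have : Continuous fun z : ℂ => ‖z - p i‖ := by fun_prop
      exact (this.tendsto z0).eventually_lt_const hz1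
    exact c1.and c2
  obtain ⟨z, ⟨ha', hb'⟩, hz2, hz3⟩ :=
    (dense_of_mem_residual (ha.and hb)).inter_nhds_nonempty hev
  exact ⟨(z, θ), ha' hz2 (hz3.trans_le (min_le_left _ _)), hb' hz2 (hz3.trans_le (min_le_right _ _))⟩

/-- a family of pairwise disjoint invariant sets which are not small -/
structure IsBFam (p : Fin (n + 3) → ℂ) (F : Set (Set (ℂ × ℝ))) : Prop where
  meas : ∀ E ∈ F, MeasurableSet E
  inv : ∀ E ∈ F, IsInvariant p E
  big : ∀ E ∈ F, ¬ Small p E
  dis : F.PairwiseDisjoint id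

theorem not_small_empty : Small p (∅ : Set (ℂ × ℝ)) := by
  rw [small_iff]
  exact Eventually.of_forall fun θ => Eventually.of_forall fun z _ h => h

theorem bfam_card (hp : IsConvexPolygon p) (hirr : ∀ i, Irrational (ang p i / π))
    {F : Set (Set (ℂ × ℝ))} (hF : IsBFam p F) : F.Finite ∧ F.ncard ≤ n + 3 := by
  have hv : ∀ E ∈ F, ∃ i, ∀ᵐ θ : ℝ, θ ∈ FX p (residual ℂ) (ind E) {1} i := fun E hE =>
    big_vertex hp hirr (hF.meas E hE) (hF.inv E hE) (hF.big E hE)
  choose! v hv using hv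
  have hinj : InjOn v F := by
    intro A hA B hB hAB
    by_contra hne
    have h2 := hv B hB
    rw [← hAB] at h2
    obtain ⟨x, hx1, hx2⟩ := fx_not_small hp (hv A hA) h2
    exact (Set.disjoint_left.1 (hF.dis hA hB hne)) hx1 hx2
  have hfin : F.Finite := Set.Finite.of_finite_image (Set.toFinite (v '' F)) hinj
  refine ⟨hfin, ?_⟩
  calc F.ncard = (v '' F).ncard := hinj.ncard_image.symm
    _ ≤ (univ : Set (Fin (n + 3))).ncard := ncard_le_ncard (subset_univ _)
    _ = n + 3 := by rw [ncard_univ, Nat.card_fin]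

theorem inv_inter {A B : Set (ℂ × ℝ)} (hA : IsInvariant p A) (hB : IsInvariant p B) :
    IsInvariant p (A ∩ B) :=
  ⟨fun z θ => and_congr (hA.periodic z θ) (hB.periodic z θ),
    fun z θ s h1 h2 => and_congr (hA.free z θ s h1 h2) (hB.free z θ s h1 h2),
    fun i y hy θ s r hs hr h1 h2 =>
      and_congr (hA.reflect i y hy θ s r hs hr h1 h2) (hB.reflect i y hy θ s r hs hr h1 h2)⟩

theorem inv_sUnion {F : Set (Set (ℂ × ℝ))} (hF : ∀ U ∈ F, IsInvariant p U) :
    IsInvariant p (⋃₀ F) := by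
  refine ⟨?_, ?_, ?_⟩
  · intro z θ
    simp only [mem_sUnion]
    exact exists_congr fun U => and_congr_right fun hU => (hF U hU).periodic z θ
  · intro z θ s h1 h2
    simp only [mem_sUnion]
    exact exists_congr fun U => and_congr_right fun hU => (hF U hU).free z θ s h1 h2
  · intro i y hy θ s r hs hr h1 h2
    simp only [mem_sUnion]
    exact exists_congr fun U => and_congr_right fun hU =>
      (hF U hU).reflect i y hy θ s r hs hr h1 h2

/-- The decomposition into at most `n + 3` atoms. -/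
theorem atoms (hp : IsConvexPolygon p) (hirr : ∀ i, Irrational (ang p i / π)) :
    ∃ F : Set (Set (ℂ × ℝ)), F.Finite ∧ F.ncard ≤ n + 3 ∧ IsBFam p F ∧
      Small p ((region p ×ˢ univ) \ ⋃₀ F) ∧
      ∀ E ∈ F, ∀ A, MeasurableSet A → IsInvariant p A → Small p (E ∩ A) ∨ Small p (E \ A) := by
  classical
  have hex : ∃ m, (∃ F, IsBFam p F ∧ F.ncard = m) ∧ ∀ F, IsBFam p F → F.ncard ≤ m := by
    have h0 : ∃ m, ∃ F, IsBFam p F ∧ F.ncard = m :=
      ⟨0, ∅, ⟨by simp, by simp, by simp, by simp⟩, by simp⟩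
    have hbd : ∀ m, (∃ F, IsBFam p F ∧ F.ncard = m) → m ≤ n + 3 := by
      rintro m ⟨F, hF, rfl⟩
      exact (bfam_card hp hirr hF).2
    obtain ⟨m0, hm0⟩ := h0
    refine ⟨Nat.findGreatest (fun m => ∃ F, IsBFam p F ∧ F.ncard = m) (n + 3),
      Nat.findGreatest_spec (P := fun m => ∃ F, IsBFam p F ∧ F.ncard = m) (hbd m0 hm0) hm0,
      fun F hF => Nat.le_findGreatest (bfam_card hp hirr hF).2 ⟨F, hF, rfl⟩⟩
  obtain ⟨m, ⟨F, hF, hFm⟩, hmax⟩ := hex
  obtain ⟨hfin, hcard⟩ := bfam_card hp hirr hF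
  have hRm : MeasurableSet (region p ×ˢ (univ : Set ℝ)) :=
    (isOpen_interior.prod isOpen_univ).measurableSet
  refine ⟨F, hfin, hcard, hF, ?_, ?_⟩
  · by_contra hcon
    set W : Set (ℂ × ℝ) := (region p ×ˢ univ) \ ⋃₀ F with hW
    have hWm : MeasurableSet W := hRm.diff (MeasurableSet.sUnion hfin.countable hF.meas)
    have hWI : IsInvariant p W := inv_inter (all_inv p) (not_inv (inv_sUnion hF.inv))
    have hWd : ∀ U ∈ F, Disjoint W U := by
      intro U hU
      rw [Set.disjoint_left]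
      intro y hy1 hy2
      exact hy1.2 ⟨U, hU, hy2⟩
    have hWF : W ∉ F := by
      intro h
      have h1 : W = ∅ := by
        have := hWd W h
        rwa [disjoint_self, bot_eq_empty] at this
      apply hcon
      rw [h1]
      exact not_small_empty
    have hFam : IsBFam p (insert W F) := by
      refine ⟨?_, ?_, ?_, ?_⟩
      · rintro U (rfl | hU)
        · exact hWm
        · exact hF.meas U hU
      · rintro U (rfl | hU)
        · exact hWI
        · exact hF.inv U hU
      · rintro U (rfl | hU)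
        · exact hcon
        · exact hF.big U hU
      · exact (pairwiseDisjoint_insert_of_notMem hWF).2 ⟨hF.dis, fun U hU => hWd U hU⟩
    have h1 := hmax _ hFam
    rw [ncard_insert_of_notMem hWF hfin, hFm] at h1
    omega
  · intro E hE A hA hAI
    by_contra hcon
    push Not at hcon
    obtain ⟨hc1, hc2⟩ := hcon
    set V : Set (ℂ × ℝ) := E ∩ A with hV
    set W : Set (ℂ × ℝ) := E \ A with hW
    have hVI : IsInvariant p V := inv_inter (hF.inv E hE) hAI
    have hWI : IsInvariant p W := inv_inter (hF.inv E hE) (not_inv hAI)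
    have hVm : MeasurableSet V := (hF.meas E hE).inter hA
    have hWm : MeasurableSet W := (hF.meas E hE).diff hA
    have hWV : Disjoint W V := by
      rw [Set.disjoint_left]
      intro y hy1 hy2
      exact hy1.2 hy2.2
    set F' : Set (Set (ℂ × ℝ)) := F \ {E} with hF'
    have hF'fin : F'.Finite := hfin.subset sdiff_subset
    have hdE : ∀ T ∈ F', Disjoint T E := by
      intro T hT
      exact hF.dis hT.1 hE (fun h => hT.2 (by rw [h]; rfl))
    have hself : ∀ B : Set (ℂ × ℝ), ¬ Small p B → ¬ Disjoint B B := by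
      intro B hB h
      apply hB
      rw [disjoint_self, bot_eq_empty] at h
      rw [h]
      exact not_small_empty
    have hVF' : V ∉ F' := by
      intro h
      exact hself V hc1 ((hdE V h).mono_right inter_subset_left)
    have hWF' : W ∉ insert V F' := by
      rintro (h | h)
      · apply hself W hc2
        have h2 := hWV
        rwa [← h] at h2
      · exact hself W hc2 ((hdE W h).mono_right sdiff_subset)
    have hFam : IsBFam p (insert W (insert V F')) := by
      refine ⟨?_, ?_, ?_, ?_⟩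
      · rintro T (rfl | rfl | hT)
        · exact hWm
        · exact hVm
        · exact hF.meas T hT.1
      · rintro T (rfl | rfl | hT)
        · exact hWI
        · exact hVI
        · exact hF.inv T hT.1
      · rintro T (rfl | rfl | hT)
        · exact hc2
        · exact hc1
        · exact hF.big T hT.1
      · refine (pairwiseDisjoint_insert_of_notMem hWF').2 ⟨(pairwiseDisjoint_insert_of_notMem
          hVF').2 ⟨hF.dis.subset sdiff_subset, fun T hT => ?_⟩, ?_⟩
        · exact ((hdE T hT).mono_right inter_subset_left).symm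
        · rintro T (rfl | hT)
          · exact hWV
          · exact ((hdE T hT).mono_right sdiff_subset).symm
    have h1 := hmax _ hFam
    rw [ncard_insert_of_notMem hWF' (hF'fin.insert V), ncard_insert_of_notMem hVF' hF'fin] at h1
    have h2 : F'.ncard + 1 = F.ncard := ncard_sdiff_singleton_add_one hE hfin
    omega

/-- the orbit closure of the generic states of an atom -/
theorem atom_closure (hp : IsConvexPolygon p) (hirr : ∀ i, Irrational (ang p i / π))
    {E : Set (ℂ × ℝ)} (hbig : ¬ Small p E)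
    (hat : ∀ A, MeasurableSet A → IsInvariant p A → Small p (E ∩ A) ∨ Small p (E \ A)) :
    ∃ i, ∀ᵐ θ : ℝ, ∀ᶠ z : ℂ in residual ℂ, z ∈ region p → (z, θ) ∈ E →
      closure (Orbit p (z, θ)) = KK p i := by
  have h1 : ∀ᵐ θ : ℝ, ∀ W ∈ Bas, ∀ᶠ z : ℂ in residual ℂ, z ∈ region p → (z, θ) ∈ E →
      ((z, θ) ∈ Sat p W ↔ ¬ Small p (E ∩ Sat p W)) := by
    refine bas_all fun W hW => ?_
    by_cases h : Small p (E ∩ Sat p W)
    · have h2 := small_iff.1 h
      filter_upwards [h2] with θ hθ
      filter_upwards [hθ] with z hz h3 h4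
      exact iff_of_false (fun h5 => hz h3 ⟨h4, h5⟩) (not_not.2 h)
    · have h2 := small_iff.1 ((hat _ (sat_inv hp W).isOpen.measurableSet
        (sat_inv hp W).inv).resolve_left h)
      filter_upwards [h2] with θ hθ
      filter_upwards [hθ] with z hz h3 h4
      refine iff_of_true ?_ h
      by_contra h5
      exact hz h3 ⟨h4, h5⟩
  have h2 : ∀ᵐ θ : ℝ, ∀ᶠ z : ℂ in residual ℂ, z ∈ region p → (z, θ) ∈ E →
      closure (Orbit p (z, θ)) = {y | ∀ W ∈ Bas, y ∈ W → ¬ Small p (E ∩ Sat p W)} := by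
    filter_upwards [h1] with θ hθ
    have h3 : ∀ᶠ z : ℂ in residual ℂ, ∀ W ∈ Bas, z ∈ region p → (z, θ) ∈ E →
        ((z, θ) ∈ Sat p W ↔ ¬ Small p (E ∩ Sat p W)) := by
      rw [eventually_countable_ball bas_count]
      exact hθ
    filter_upwards [h3] with z hz hzr hzE
    ext y
    rw [closure_iff hp (x := (z, θ)) hzr]
    refine forall₂_congr fun W hW => imp_congr_right fun _ => ?_
    exact hz W hW hzr hzE
  -- one generic state
  have h3 : ∃ i, {y | ∀ W ∈ Bas, y ∈ W → ¬ Small p (E ∩ Sat p W)} = KK p i := by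
    by_contra hcon
    push Not at hcon
    apply hbig
    rw [small_iff]
    filter_upwards [h2, generic_closure hp hirr] with θ h4 h5
    filter_upwards [h4, h5.2] with z h6 h7 h8 h9
    obtain ⟨i, hi⟩ := h7 h8
    exact hcon i ((h6 h8 h9).symm.trans hi)
  obtain ⟨i, hi⟩ := h3
  refine ⟨i, ?_⟩
  filter_upwards [h2] with θ h4
  filter_upwards [h4] with z h5 h6 h7
  rw [h5 h6 h7, hi]

end Pool.Agent.U106.OX
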