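import Pool.Agent.U106.OI.Fin

set_option autoImplicit false

/-!
Billiards in convex polygons: a line which crosses the sides of an itinerary.
-/

namespace Pool.Agent.U106.OX

open Complex Set MeasureTheory Filter Topology Pool.Agent.W780.PG Pool.Agent.W780.BB
  Pool.Agent.TH103.BL Pool.Agent.N557.BP Pool.Agent.U106.BI Pool.Agent.U106.OI

open scoped Real ComplexConjugate

variable {n : ℕ} {p : Fin (n + 3) → ℂ}

theorem ch_cross (hp : IsConvexPolygon p) {z : ℂ} {θ b s : ℝ} {w : ℕ → Fin (n + 3)} {K : ℕ}
    (hz : z + b • dir θ ∈ reg p) (hex : ∀ m < K, sl p (w m) (angs p θ w m) < 0)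
    (hop : ∀ m < K, vd p z θ w m (w m) * vd p z θ w m (w m + 1) < 0)
    (hs : srcs p z w K + s • dir (angs p θ w K) ∈ reg p) :
    Ch p ((List.range K).map w) (z + b • dir θ) (z + s • dir θ) := by
  have hmeet : ∀ m, ∃ t : ℝ, m < K → srcs p z w m + t • dir (angs p θ w m) ∈ side p (w m) := by
    intro m
    by_cases hm : m < K
    · obtain ⟨t, ht⟩ := Pool.Agent.N262.BP.meet (srcs p z w m) (p (w m)) (p (w m + 1))
        (angs p θ w m) (hop m hm)
      exact ⟨t, fun _ => ht⟩
    · exact ⟨0, fun h => absurd h hm⟩
  choose t ht using hmeet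
  have hnext : ∀ m < K, srcs p z w (m + 1) + t m • dir (angs p θ w (m + 1)) =
      srcs p z w m + t m • dir (angs p θ w m) := by
    intro m hm
    show rf p (w m) (srcs p z w m) + t m • dir (2 * tau p (w m) - angs p θ w m) = _
    rw [← rf_ray hp]
    exact rf_fix hp _ _ (side_zero hp (ht m hm))
  have hin : ∀ m < K, 0 < sl p (w m) (angs p θ w (m + 1)) := by
    intro m hm
    show 0 < sl p (w m) (2 * tau p (w m) - angs p θ w m)
    rw [sl_refl hp]
    linarith [hex m hm]
  have hmono : ∀ k, k + 1 < K → t k < t (k + 1) := by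
    intro k hk
    have hne : w (k + 1) ≠ w k := by
      intro h
      have h1 := hex (k + 1) hk
      have h2 := hin k (by omega)
      rw [h] at h1
      linarith
    have h1 := side_pos hp (ht k (by omega)) hne
    rw [← hnext k (by omega), sf_ray] at h1
    have h2 := side_zero hp (ht (k + 1) hk)
    rw [sf_ray] at h2
    have h3 := hex (k + 1) hk
    by_contra hc
    push Not at hc
    have h4 := mul_nonneg (show 0 ≤ t k - t (k + 1) by linarith)
      (show 0 ≤ - sl p (w (k + 1)) (angs p θ w (k + 1)) by linarith)
    linarith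
  have hlast : ∀ k < K, t k < s := by
    have h0 : ∀ k, k + 1 = K → t k < s := by
      intro k hk
      have h1 : 0 < sf p (w k) (srcs p z w K + s • dir (angs p θ w K)) := hs (w k)
      rw [← hk, sf_ray] at h1
      have h2 := side_zero hp (ht k (by omega))
      rw [← hnext k (by omega), sf_ray] at h2
      have h3 := hin k (by omega)
      by_contra hc
      push Not at hc
      have h4 := mul_nonneg (show 0 ≤ t k - s by linarith) h3.le
      linarith
    have h1 : ∀ d k, k + 1 + d = K → t k < s := by
      intro d
      induction d with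
      | zero => exact fun k hk => h0 k hk
      | succ d ih =>
        intro k hk
        exact (hmono k (by omega)).trans (ih (k + 1) (by omega))
    intro k hk
    exact h1 (K - (k + 1)) k (by omega)
  refine ch_of hp K w t z θ b s ht hex ?_ hmono hlast hs
  intro hK
  have h1 : 0 < sf p (w 0) (z + b • dir θ) := hz (w 0)
  rw [sf_ray] at h1
  have h2 := side_zero hp (ht 0 hK)
  have h3 := hex 0 hK
  change sf p (w 0) (z + t 0 • dir θ) = 0 at h2
  change sl p (w 0) θ < 0 at h3
  rw [sf_ray] at h2
  by_contra hc
  push Not at hc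
  have h4 := mul_nonneg (show 0 ≤ b - t 0 by linarith) (show 0 ≤ - sl p (w 0) θ by linarith)
  linarith

end Pool.Agent.U106.OX
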