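import Pool.Agent.U106.OX.Vtx

set_option autoImplicit false

/-!
Measurability, in the direction, of properties of the slices of a set: containing all points, or a
residual set of points, of an open set.
-/

namespace Pool.Agent.U106.OX

open Complex Set MeasureTheory Filter Topology Pool.Agent.W780.PG Pool.Agent.W780.BB
  Pool.Agent.TH103.BL Pool.Agent.N557.BP Pool.Agent.U106.BI Pool.Agent.U106.OI

open scoped Real ComplexConjugate

/-- the projection of the intersection of an open and a closed set -/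
theorem proj_meas {A B : Set (ℂ × ℝ)} (hA : IsOpen A) (hB : IsClosed B) :
    MeasurableSet (Prod.snd '' (A ∩ B)) := by
  obtain ⟨F, hF, -, hFA, -⟩ := hA.exists_iUnion_isClosed
  have e : Prod.snd '' (A ∩ B) = ⋃ (k : ℕ) (m : ℕ),
      Prod.snd '' ((F k ∩ B) ∩ Metric.closedBall (0 : ℂ × ℝ) m) := by
    ext θ
    simp only [mem_image, mem_iUnion]
    constructor
    · rintro ⟨x, ⟨h1, h2⟩, rfl⟩
      rw [← hFA, mem_iUnion] at h1
      obtain ⟨k, hk⟩ := h1
      obtain ⟨m, hm⟩ := exists_nat_ge (dist x 0)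
      exact ⟨k, m, x, ⟨⟨hk, h2⟩, hm⟩, rfl⟩
    · rintro ⟨k, m, x, ⟨⟨h1, h2⟩, -⟩, rfl⟩
      exact ⟨x, ⟨hFA ▸ mem_iUnion.2 ⟨k, h1⟩, h2⟩, rfl⟩
  rw [e]
  refine MeasurableSet.iUnion fun k => MeasurableSet.iUnion fun m => ?_
  have h1 : IsCompact ((F k ∩ B) ∩ Metric.closedBall (0 : ℂ × ℝ) m) :=
    (isCompact_closedBall (0 : ℂ × ℝ) m).inter_left ((hF k).inter hB)
  exact (h1.image continuous_snd).isClosed.measurableSet

/-- all points -/
theorem ms_top {V : Set (ℂ × ℝ)} (hV : IsOpen V) : Ms (⊤ : Filter ℂ) (ind V) {1} := by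
  intro O hO
  have h := (proj_meas hO hV.isClosed_compl).compl
  convert h using 1
  ext θ
  simp only [mem_ofPred_eq, eventually_top, mem_one, mem_compl_iff, mem_image, mem_inter_iff]
  constructor
  · rintro h1 ⟨⟨z, θ'⟩, ⟨h2, h3⟩, rfl⟩
    exact h3 (h1 z h2)
  · intro h1 z h2
    by_contra h3
    exact h1 ⟨(z, θ), ⟨h2, h3⟩, rfl⟩

/-- a meagre open set is empty -/
theorem open_res {W : Set ℂ} (hW : IsOpen W) (h : ∀ᶠ z : ℂ in residual ℂ, z ∉ W) : W = ∅ := by
  by_contra hne
  have h1 : Wᶜ ∈ residual ℂ := h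
  obtain ⟨z, hz, hz2⟩ := (dense_of_mem_residual h1).inter_open_nonempty W hW
    (nonempty_iff_ne_empty.2 hne)
  exact hz2 hz

/-- points outside of `B`, up to meagre sets -/
theorem vaught {B : Set (ℂ × ℝ)} (hB : MeasurableSet B) : ∀ W : Set ℂ, IsOpen W →
    MeasurableSet {θ : ℝ | ∀ᶠ z : ℂ in residual ℂ, z ∈ W → (z, θ) ∉ B} := by
  induction B, hB using MeasurableSet.induction_on_open with
  | isOpen U hU =>
    intro W hW
    have h1 : IsOpen (Prod.snd '' (U ∩ W ×ˢ (univ : Set ℝ))) :=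
      isOpenMap_snd _ (hU.inter (hW.prod isOpen_univ))
    convert h1.measurableSet.compl using 1
    ext θ
    simp only [mem_ofPred_eq, mem_compl_iff, mem_image, mem_inter_iff, mem_prod, mem_univ, and_true]
    constructor
    · rintro h2 ⟨⟨z, θ'⟩, ⟨h3, h4⟩, rfl⟩
      have hc : Continuous fun y : ℂ => (y, θ') := by fun_prop
      have h5 := open_res ((hU.preimage hc).inter hW) (by
        filter_upwards [h2] with y hy
        rintro ⟨h6, h7⟩
        exact hy h7 h6)
      have h6 : z ∈ (fun y : ℂ => (y, θ')) ⁻¹' U ∩ W := ⟨h3, h4⟩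
      rw [h5] at h6
      exact h6
    · intro h2
      refine Eventually.of_forall fun z h3 h4 => h2 ⟨(z, θ), ⟨h4, h3⟩, rfl⟩
  | compl T hT ih =>
    intro W hW
    obtain ⟨ℬ, hcount, -, hbasis⟩ := TopologicalSpace.exists_countable_basis ℂ
    have e : {θ : ℝ | ∀ᶠ z : ℂ in residual ℂ, z ∈ W → (z, θ) ∉ Tᶜ} =
        ⋂ W' ∈ {W' ∈ ℬ | W'.Nonempty ∧ W' ⊆ W},
          {θ : ℝ | ∀ᶠ z : ℂ in residual ℂ, z ∈ W' → (z, θ) ∉ T}ᶜ := by
      ext θ
      simp only [mem_ofPred_eq, mem_iInter, mem_compl_iff, not_not]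
      constructor
      · rintro h1 W' ⟨h2, h3, h4⟩ h5
        have h6 := open_res (hbasis.isOpen h2) (by
          filter_upwards [h1, h5] with z a1 a2 a3
          exact a2 a3 (a1 (h4 a3)))
        exact h3.ne_empty h6
      · intro h1
        have hs : MeasurableSet {z : ℂ | (z, θ) ∈ T}ᶜ := (measurable_prodMk_right hT).compl
        obtain ⟨U, hU, hUs⟩ := hs.residualEq_isOpen
        have h2 : W ∩ U = ∅ := by
          by_contra hne
          obtain ⟨z, hz⟩ := nonempty_iff_ne_empty.2 hne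
          obtain ⟨W', h3, h4, h5⟩ := hbasis.exists_subset_of_mem_open hz (hW.inter hU)
          refine h1 W' ⟨h3, ⟨z, h4⟩, fun y hy => (h5 hy).1⟩ ?_
          filter_upwards [hUs.mem_iff] with y hy a1 a2
          exact (hy.2 (h5 a1).2) a2
        filter_upwards [hUs.mem_iff] with y hy a1
        by_contra a2
        have : y ∈ W ∩ U := ⟨a1, hy.1 a2⟩
        rw [h2] at this
        exact this
    rw [e]
    exact MeasurableSet.biInter (hcount.mono (sep_subset _ _))
      fun W' hW' => (ih W' (hbasis.isOpen hW'.1)).compl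
  | iUnion T hd hT ih =>
    intro W hW
    have e : {θ : ℝ | ∀ᶠ z : ℂ in residual ℂ, z ∈ W → (z, θ) ∉ ⋃ k, T k} =
        ⋂ k, {θ : ℝ | ∀ᶠ z : ℂ in residual ℂ, z ∈ W → (z, θ) ∉ T k} := by
      ext θ
      simp only [mem_ofPred_eq, mem_iInter, mem_iUnion, not_exists]
      rw [← eventually_countable_forall]
      refine eventually_congr (Eventually.of_forall fun z => ?_)
      exact ⟨fun h k hz => h hz k, fun h hz k => h k hz⟩
    rw [e]
    exact MeasurableSet.iInter fun k => ih k W hW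

/-- residual sets of points -/
theorem ms_residual {f : ℂ × ℝ → ℝ} (hf : Measurable f) {C : Set ℝ} (hC : MeasurableSet C) :
    Ms (residual ℂ) f C := by
  intro O hO
  have h := vaught (B := O ∩ (f ⁻¹' C)ᶜ) (hO.measurableSet.inter (hf hC).compl) univ isOpen_univ
  convert h using 1
  ext θ
  simp only [mem_ofPred_eq, mem_univ, true_imp_iff, mem_inter_iff, mem_compl_iff, mem_preimage,
    not_and, not_not]

end Pool.Agent.U106.OX
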