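import Pool.Agent.U106.OX.Meas

set_option autoImplicit false

/-!
Billiards in convex polygons: orbits as smallest invariant sets, saturations of open sets, and the
closures of orbits.
-/

namespace Pool.Agent.U106.OX

open Complex Set MeasureTheory Filter Topology Pool.Agent.W780.PG Pool.Agent.W780.BB
  Pool.Agent.TH103.BL Pool.Agent.N557.BP Pool.Agent.U106.BI Pool.Agent.U106.OI

open scoped Real ComplexConjugate

variable {n : ℕ} {p : Fin (n + 3) → ℂ}

/-- The orbit of the state `x`: the states which are in every invariant set containing `x`. -/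
def Orbit (p : Fin (n + 3) → ℂ) (x : ℂ × ℝ) : Set (ℂ × ℝ) :=
  {y | ∀ S : Set (ℂ × ℝ), IsInvariant p S → x ∈ S → y ∈ S}

theorem orbit_self (x : ℂ × ℝ) : x ∈ Orbit p x := fun _ _ h => h

theorem orbit_sub_of {S : Set (ℂ × ℝ)} (hS : IsInvariant p S) {x : ℂ × ℝ} (hx : x ∈ S) :
    Orbit p x ⊆ S := fun _ hy => hy S hS hx

theorem orbit_congr {x x' : ℂ × ℝ} (h : ∀ S : Set (ℂ × ℝ), IsInvariant p S → (x ∈ S ↔ x' ∈ S)) :
    Orbit p x = Orbit p x' := by
  ext y
  constructor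
  · intro hy S hS hx
    exact hy S hS ((h S hS).2 hx)
  · intro hy S hS hx
    exact hy S hS ((h S hS).1 hx)

theorem not_inv {S : Set (ℂ × ℝ)} (hS : IsInvariant p S) : IsInvariant p Sᶜ :=
  ⟨fun z θ => not_congr (hS.periodic z θ), fun z θ s h1 h2 => not_congr (hS.free z θ s h1 h2),
    fun i y hy θ s r hs hr h1 h2 => not_congr (hS.reflect i y hy θ s r hs hr h1 h2)⟩

theorem all_inv (p : Fin (n + 3) → ℂ) : IsInvariant p (region p ×ˢ (univ : Set ℝ)) :=
  ⟨fun _ _ => Iff.rfl, fun _ _ _ h1 h2 => ⟨fun _ => ⟨h2, trivial⟩, fun _ => ⟨h1, trivial⟩⟩,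
    fun _ _ _ _ _ _ _ _ h1 h2 => ⟨fun _ => ⟨h2, trivial⟩, fun _ => ⟨h1, trivial⟩⟩⟩

/-- the states whose orbits avoid `W` -/
def Av (p : Fin (n + 3) → ℂ) (W : Set (ℂ × ℝ)) : Set (ℂ × ℝ) := {x | ∀ y ∈ Orbit p x, y ∉ W}

theorem av_inv (W : Set (ℂ × ℝ)) : IsInvariant p (Av p W) := by
  have key : ∀ x x' : ℂ × ℝ, (∀ S : Set (ℂ × ℝ), IsInvariant p S → (x ∈ S ↔ x' ∈ S)) →
      (x ∈ Av p W ↔ x' ∈ Av p W) := by
    intro x x' h
    unfold Av
    rw [mem_ofPred_eq, mem_ofPred_eq, orbit_congr h]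
  exact ⟨fun z θ => key _ _ fun S hS => hS.periodic z θ,
    fun z θ s h1 h2 => key _ _ fun S hS => hS.free z θ s h1 h2,
    fun i y hy θ s r hs hr h1 h2 => key _ _ fun S hS => hS.reflect i y hy θ s r hs hr h1 h2⟩

/-- the saturation of the open set `W` -/
def Sat (p : Fin (n + 3) → ℂ) (W : Set (ℂ × ℝ)) : Set (ℂ × ℝ) :=
  (region p ×ˢ univ) \ closure (Av p W)

theorem sat_inv (hp : IsConvexPolygon p) (W : Set (ℂ × ℝ)) : IsOpenInvariant p (Sat p W) :=
  compl_inv hp (av_inv W)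

theorem sat_of_mem {W : Set (ℂ × ℝ)} (hW : IsOpen W) {x : ℂ × ℝ} (hx : x.1 ∈ region p)
    (hxW : x ∈ W) : x ∈ Sat p W := by
  refine ⟨⟨hx, trivial⟩, fun h => ?_⟩
  have h1 : IsOpen ((region p ×ˢ (univ : Set ℝ)) ∩ W) :=
    (isOpen_interior.prod isOpen_univ).inter hW
  obtain ⟨y, ⟨-, hy1⟩, hy2⟩ := mem_closure_iff.1 h _ h1 ⟨⟨hx, trivial⟩, hxW⟩
  exact hy2 y (orbit_self y) hy1

theorem sat_iff (hp : IsConvexPolygon p) {W : Set (ℂ × ℝ)} (hW : IsOpen W) {x : ℂ × ℝ}
    (hx : x.1 ∈ region p) : x ∈ Sat p W ↔ (Orbit p x ∩ W).Nonempty := by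
  constructor
  · rintro ⟨-, h⟩
    have h1 : x ∉ Av p W := fun h2 => h (subset_closure h2)
    unfold Av at h1
    simp only [mem_ofPred_eq, not_forall, not_not] at h1
    obtain ⟨y, hy1, hy2⟩ := h1
    exact ⟨y, hy1, hy2⟩
  · rintro ⟨y, hy1, hy2⟩
    have hyr : y ∈ region p ×ˢ (univ : Set ℝ) :=
      orbit_sub_of (all_inv p) (show x ∈ region p ×ˢ (univ : Set ℝ) from ⟨hx, trivial⟩) hy1
    by_contra hcon
    exact hy1 _ (not_inv (sat_inv hp W).inv) hcon (sat_of_mem hW hyr.1 hy2)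

/-- a countable basis -/
def Bas : Set (Set (ℂ × ℝ)) := TopologicalSpace.countableBasis (ℂ × ℝ)

theorem bas_count : Bas.Countable := TopologicalSpace.countable_countableBasis _

theorem bas_open {W : Set (ℂ × ℝ)} (hW : W ∈ Bas) : IsOpen W :=
  TopologicalSpace.isOpen_of_mem_countableBasis hW

theorem closure_iff (hp : IsConvexPolygon p) {x y : ℂ × ℝ} (hx : x.1 ∈ region p) :
    y ∈ closure (Orbit p x) ↔ ∀ W ∈ Bas, y ∈ W → x ∈ Sat p W := by
  rw [(TopologicalSpace.isBasis_countableBasis (ℂ × ℝ)).mem_closure_iff]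
  refine forall₂_congr fun W hW => imp_congr_right fun _ => ?_
  rw [sat_iff hp (bas_open hW) hx, inter_comm]

/-- the vertex sees `V`: in almost every direction all states near `p i` are in `V` -/
def Sees (p : Fin (n + 3) → ℂ) (i : Fin (n + 3)) (V : Set (ℂ × ℝ)) : Prop :=
  ∀ᵐ θ : ℝ, θ ∈ FX p ⊤ (ind V) {1} i

/-- the closure of the orbits of the rays from `p i` -/
def KK (p : Fin (n + 3) → ℂ) (i : Fin (n + 3)) : Set (ℂ × ℝ) :=
  {y | ∀ W ∈ Bas, y ∈ W → Sees p i (Sat p W)}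

theorem kk_closed (i : Fin (n + 3)) : IsClosed (KK p i) := by
  have e : (KK p i)ᶜ = ⋃₀ {W ∈ Bas | ¬ Sees p i (Sat p W)} := by
    ext y
    simp only [KK, mem_compl_iff, mem_ofPred_eq, not_forall, mem_sUnion]
    constructor
    · rintro ⟨W, h1, h2, h3⟩
      exact ⟨W, ⟨h1, h3⟩, h2⟩
    · rintro ⟨W, ⟨h1, h3⟩, h2⟩
      exact ⟨W, h1, h2, h3⟩
  rw [← isOpen_compl_iff, e]
  exact isOpen_sUnion fun W hW => bas_open hW.1

theorem fx_one {V : Set (ℂ × ℝ)} {i : Fin (n + 3)} {θ : ℝ} :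
    θ ∈ FX p ⊤ (ind V) {1} i ↔ ∃ r : ℝ, 0 < r ∧
      ∀ z : ℂ, z ∈ reg p → ‖z - p i‖ < r → (z, θ) ∈ V := by
  rw [fx_iff]
  simp only [eventually_top, mem_one]

/-- a ray in a direction in which `V` contains all states near the vertex -/
theorem ray_of_fx (hp : IsConvexPolygon p) {V : Set (ℂ × ℝ)} (hV : IsInvariant p V)
    {i : Fin (n + 3)} {θ : ℝ} (h : θ ∈ FX p ⊤ (ind V) {1} i) {s : ℝ}
    (hs : p i + s • dir θ ∈ region p) : (p i + s • dir θ, θ) ∈ V := by
  have hrr := region_eq hp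
  rw [fx_one] at h
  obtain ⟨r, hr, hall⟩ := h
  obtain ⟨s1, h1, h2⟩ := inner_small hp (by rw [← hrr]; exact hs) hr
  have h3 := hall _ h2 (by
    rw [add_sub_cancel_left, norm_smul, norm_dir, mul_one, Real.norm_eq_abs]
    exact h1)
  have h4 := (hV.free (p i + s1 • dir θ) θ (s - s1) (by rw [hrr]; exact h2) (by
    rw [add_assoc, ← add_smul, add_sub_cancel]; exact hs)).1 h3
  rwa [add_assoc, ← add_smul, add_sub_cancel] at h4

/-- if one ray is in the open invariant set `V`, then the vertex sees `V` -/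
theorem sees_of_ray (hp : IsConvexPolygon p) {V : Set (ℂ × ℝ)} (hV : IsOpenInvariant p V)
    {i : Fin (n + 3)} (hirr : Irrational (ang p i / π)) {θ0 s0 : ℝ}
    (h0 : (p i + s0 • dir θ0, θ0) ∈ V) : Sees p i V := by
  have hrr := region_eq hp
  have hG := good_top p
  have hms := ms_top hV.isOpen
  have hdc : Continuous dir := by unfold dir; fun_prop
  obtain ⟨ρ, hρ, hball⟩ := Metric.isOpen_iff.1 hV.isOpen _ h0
  have hin : ∀ z θ, ‖z - (p i + s0 • dir θ0)‖ < ρ → |θ - θ0| < ρ → (z, θ) ∈ V := by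
    intro z θ h1 h2
    apply hball
    rw [Metric.mem_ball, Prod.dist_eq]
    exact max_lt (by rw [dist_eq_norm]; exact h1) (by rw [Real.dist_eq]; exact h2)
  have hc : Continuous fun θ : ℝ => ‖p i + s0 • dir θ - (p i + s0 • dir θ0)‖ := by fun_prop
  have hev : ∀ᶠ θ in 𝓝 θ0, ‖p i + s0 • dir θ - (p i + s0 • dir θ0)‖ < ρ / 2 := by
    refine (hc.tendsto θ0).eventually_lt_const ?_
    rw [sub_self, norm_zero]; linarith
  obtain ⟨δ, hδ, hδb⟩ := Metric.eventually_nhds_iff.1 (hev.and (Metric.ball_mem_nhds θ0 hρ))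
  -- the strips
  have hstrip : ∀ θ : ℝ, |θ - θ0| < δ → 0 < s0 * sl p i θ ∧ 0 < s0 * sl p (i - 1) θ ∧
      θ ∈ SX p ⊤ (ind V) {1} i 1 (ρ / 2) := by
    intro θ hθ
    obtain ⟨h1, h2⟩ := hδb (y := θ) (by rw [Real.dist_eq]; exact hθ)
    rw [Real.dist_eq] at h2
    have hdd : conj (dir θ) * dir θ = 1 := Pool.Agent.N262.BP.conj_dir_mul θ
    have hr1 : p i + s0 • dir θ ∈ reg p := by
      rw [← hrr]
      exact (hV.sub (hin _ θ (by linarith) h2)).1
    have a1 : 0 < sf p i (p i + s0 • dir θ) := hr1 i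
    have a2 : 0 < sf p (i - 1) (p i + s0 • dir θ) := hr1 (i - 1)
    have e0 : sf p i (p i) = 0 := sf_self_left i
    have e1 : sf p (i - 1) (p i) = 0 := sf_self_right i
    rw [sf_ray, e0, zero_add] at a1
    rw [sf_ray, e1, zero_add] at a2
    refine ⟨a1, a2, ?_⟩
    rw [sx_iff, eventually_top]
    intro z hz h3 h4
    rw [one_mul] at h3 h4
    rw [mem_one]
    set c : ℂ := conj (dir θ) * (z - p i) with hcdef
    have hcz : z - p i = c * dir θ := by
      rw [hcdef]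
      linear_combination (-(z - p i)) * hdd
    have hcim : c.im = sd p i (z, θ) := rfl
    have hnorm : ‖z + (s0 - c.re) • dir θ - (p i + s0 • dir θ)‖ < ρ / 2 := by
      have e : z + (s0 - c.re) • dir θ - (p i + s0 • dir θ) = ((c.im : ℂ) * I) * dir θ := by
        have e2 : c = (c.re : ℂ) + (c.im : ℂ) * I := (re_add_im c).symm
        have e3 : z + (s0 - c.re) • dir θ - (p i + s0 • dir θ) = (c - (c.re : ℂ)) * dir θ := by
          rw [real_smul, real_smul]
          push_cast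
          linear_combination hcz
        rw [e3]
        congr 1
        linear_combination e2
      rw [e, norm_mul, norm_dir, mul_one, norm_mul, norm_I, mul_one, norm_real, Real.norm_eq_abs,
        hcim, abs_of_pos h3]
      exact h4
    have h5 : (z + (s0 - c.re) • dir θ, θ) ∈ V := by
      refine hin _ θ ?_ h2
      calc ‖z + (s0 - c.re) • dir θ - (p i + s0 • dir θ0)‖ =
          ‖(z + (s0 - c.re) • dir θ - (p i + s0 • dir θ)) +
            (p i + s0 • dir θ - (p i + s0 • dir θ0))‖ := by congr 1; ring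
        _ ≤ ‖z + (s0 - c.re) • dir θ - (p i + s0 • dir θ)‖ +
            ‖p i + s0 • dir θ - (p i + s0 • dir θ0)‖ := norm_add_le _ _
        _ < ρ := by linarith
    exact (hV.inv.free z θ (s0 - c.re) (by rw [hrr]; exact hz) (hV.sub h5).1).2 h5
  rcases dich hp hG (ind_inv hV.inv) hms hirr with h | h
  · exfalso
    have h1 := measure_eq_zero_iff_ae_notMem.1 h
    have h2 := two_out hp hG (ind_inv hV.inv) hms i (σ := 1) (Or.inl rfl)
    have h2' := two_in hp hG (ind_inv hV.inv) hms i (σ := 1) (Or.inl rfl)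
    obtain ⟨θ, ⟨⟨h3, h4⟩, h4'⟩, h5⟩ := (Measure.dense_of_ae ((h1.and h2).and h2')).inter_nhds_nonempty
      (Metric.ball_mem_nhds θ0 hδ)
    rw [Metric.mem_ball, Real.dist_eq] at h5
    obtain ⟨b1, b2, b3⟩ := hstrip θ h5
    rcases lt_trichotomy s0 0 with h6 | h6 | h6
    · have c1 : sl p i θ < 0 := by
        by_contra hc'
        have := mul_nonneg (neg_nonneg.2 h6.le) (not_lt.1 hc')
        linarith
      have c2 : sl p (i - 1) θ < 0 := by
        by_contra hc'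
        have := mul_nonneg (neg_nonneg.2 h6.le) (not_lt.1 hc')
        linarith
      exact h3 (h4' c1 c2 ⟨ρ / 2, by linarith, b3⟩)
    · rw [h6, zero_mul] at b1
      exact absurd b1 (lt_irrefl _)
    · exact h3 (h4 ((mul_pos_iff_of_pos_left h6).1 b1) ((mul_pos_iff_of_pos_left h6).1 b2)
        ⟨ρ / 2, by linarith, b3⟩)
  · exact h

end Pool.Agent.U106.OX
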