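import Pool.Agent.U106.OX.Orbit

set_option autoImplicit false

/-!
Billiards in convex polygons: for almost every direction the ray from a vertex has the same orbit
closure; these sets are the orbit closures of the generic states.
-/

namespace Pool.Agent.U106.OX

open Complex Set MeasureTheory Filter Topology Pool.Agent.W780.PG Pool.Agent.W780.BB
  Pool.Agent.TH103.BL Pool.Agent.N557.BP Pool.Agent.U106.BI Pool.Agent.U106.OI

open scoped Real ComplexConjugate

variable {n : ℕ} {p : Fin (n + 3) → ℂ}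

theorem kk_ray (hp : IsConvexPolygon p) {i : Fin (n + 3)} (hirr : Irrational (ang p i / π))
    {θ s : ℝ} (hs : p i + s • dir θ ∈ region p) : (p i + s • dir θ, θ) ∈ KK p i := by
  intro W hW hyW
  exact sees_of_ray hp (sat_inv hp W) hirr
    (sat_of_mem (bas_open hW) (x := (p i + s • dir θ, θ)) hs hyW)

theorem bas_all {P : Set (ℂ × ℝ) → ℝ → Prop} (h : ∀ W ∈ Bas, ∀ᵐ θ : ℝ, P W θ) :
    ∀ᵐ θ : ℝ, ∀ W ∈ Bas, P W θ := (ae_ball_iff bas_count).2 h

theorem ray_closure (hp : IsConvexPolygon p) {i : Fin (n + 3)}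
    (hirr : Irrational (ang p i / π)) :
    ∀ᵐ θ : ℝ, ∀ s : ℝ, p i + s • dir θ ∈ region p →
      closure (Orbit p (p i + s • dir θ, θ)) = KK p i := by
  have h1 : ∀ᵐ θ : ℝ, ∀ W ∈ Bas, Sees p i (Sat p W) → θ ∈ FX p ⊤ (ind (Sat p W)) {1} i := by
    refine bas_all fun W hW => ?_
    by_cases h : Sees p i (Sat p W)
    · filter_upwards [h] with θ hθ _ using hθ
    · exact Eventually.of_forall fun θ h2 => absurd h2 h
  filter_upwards [h1] with θ hθ s hs
  ext y
  rw [closure_iff hp (x := (p i + s • dir θ, θ)) hs]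
  refine forall₂_congr fun W hW => imp_congr_right fun _ => ?_
  constructor
  · intro h2
    exact sees_of_ray hp (sat_inv hp W) hirr h2
  · intro h2
    exact ray_of_fx hp (sat_inv hp W).inv (hθ W hW h2) hs

/-- the first vertex in a strip around an orbit on which the values are in `C` -/
theorem strip_fx (hp : IsConvexPolygon p) {f : ℂ × ℝ → ℝ} (hI : IsInvariantFun p f) {C : Set ℝ}
    {z1 : ℂ} {θ δ : ℝ} {u : ℕ → Fin (n + 3)} {t : ℕ → ℝ} {K : ℕ} {j : Fin (n + 3)}
    (O : Orb p z1 θ u t) (hW : Wide p z1 θ u δ K) (hjd : |vd p z1 θ u K j| < δ)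
    (hreg : ∀ y : ℂ, ‖y - z1‖ < 2 * δ → y ∈ reg p)
    (hC : ∀ y : ℂ, ‖y - z1‖ < 2 * δ → f (y, θ) ∈ C) :
    Pool.Agent.N681.BP.fda p ((List.range K).map u) θ ∈ FX p ⊤ f C j := by
  have hδ : 0 < δ := lt_of_le_of_lt (abs_nonneg _) hjd
  have hdd : conj (dir θ) * dir θ = 1 := Pool.Agent.N262.BP.conj_dir_mul θ
  obtain ⟨w, hw⟩ : ∃ w, w = (List.range K).map u := ⟨_, rfl⟩
  have hfd : ∀ (z : ℂ) (s : ℝ), fp p w (z + s • dir θ) = srcs p z u K + s • dir (angs p θ u K) ∧
      Pool.Agent.N681.BP.fda p w θ = angs p θ u K := by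
    intro z s
    have h := fd_word hp z θ s u K
    rw [← hw, Pool.Agent.N681.BP.fd_eq, Prod.mk.injEq] at h
    exact h
  rw [← hw, (hfd 0 0).2, fx_iff]
  refine ⟨δ - |vd p z1 θ u K j|, by linarith, ?_⟩
  rw [eventually_top]
  intro y hyr hyn
  have huf : fp p w (uf p w y) = y := ((hR n p hp).2.2.2.2.2.2.1 w y).1
  have hsd : ∀ s : ℝ, vd p (uf p w y - s • dir θ) θ u K j = sd p j (y, angs p θ u K) := by
    intro s
    have h4 := (hfd (uf p w y - s • dir θ) s).1
    rw [sub_add_cancel, huf] at h4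
    have h5 := Pool.Agent.N262.BP.conj_dir_mul (angs p θ u K)
    have key : ∀ X : ℂ, y = X + s • dir (angs p θ u K) →
        (conj (dir (angs p θ u K)) * (X - p j)).im = (conj (dir (angs p θ u K)) * (y - p j)).im := by
      intro X hX
      have h6 : conj (dir (angs p θ u K)) * (y - p j) = conj (dir (angs p θ u K)) *
          (X - p j) + (s : ℂ) := by
        rw [hX, real_smul]
        linear_combination (s : ℂ) * h5
      rw [h6, add_im, ofReal_im, add_zero]
    exact key _ h4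
  have hsdn : |sd p j (y, angs p θ u K)| ≤ ‖y - p j‖ := by
    unfold sd
    simp only
    refine (abs_im_le_norm _).trans ?_
    rw [norm_mul, RCLike.norm_conj, norm_dir, one_mul]
  have htv : ∀ s : ℝ, |tv θ (uf p w y - s • dir θ - z1)| < δ := by
    intro s
    have h4 := t_shift n p z1 (uf p w y - s • dir θ) θ u K j
    rw [hsd] at h4
    have h5 : |tv θ (uf p w y - s • dir θ - z1)| = |(-1) ^ K * tv θ (uf p w y - s • dir θ - z1)| := by
      rw [abs_mul, abs_pow, abs_neg, abs_one, one_pow, one_mul]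
    rw [h5]
    have h6 : (-1) ^ K * tv θ (uf p w y - s • dir θ - z1) =
        sd p j (y, angs p θ u K) - vd p z1 θ u K j := by
      linarith
    rw [h6]
    have h7 := abs_sub (sd p j (y, angs p θ u K)) (vd p z1 θ u K j)
    linarith
  set c : ℂ := conj (dir θ) * (uf p w y - z1) with hc
  have hcz : uf p w y - z1 = c * dir θ := by
    rw [hc]
    linear_combination (-(uf p w y - z1)) * hdd
  have hcim : |c.im| < δ := by
    have h4 := htv 0
    rw [zero_smul, sub_zero] at h4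
    exact h4
  have hnorm : ‖uf p w y - c.re • dir θ - z1‖ < 2 * δ := by
    have e : uf p w y - c.re • dir θ - z1 = ((c.im : ℂ) * I) * dir θ := by
      have e2 : c = (c.re : ℂ) + (c.im : ℂ) * I := (re_add_im c).symm
      have e3 : uf p w y - c.re • dir θ - z1 = (c - (c.re : ℂ)) * dir θ := by
        rw [real_smul]
        linear_combination hcz
      rw [e3]
      congr 1
      linear_combination e2
    rw [e, norm_mul, norm_dir, mul_one, norm_mul, norm_I, mul_one, norm_real, Real.norm_eq_abs]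
    linarith
  set z' : ℂ := uf p w y - c.re • dir θ with hz'
  have hz'r := hreg z' hnorm
  have hfz := hC z' hnorm
  have hpos : srcs p z' u K + c.re • dir (angs p θ u K) = y := by
    rw [← (hfd z' c.re).1, hz', sub_add_cancel, huf]
  have hopp := my_opp n p hp z1 θ u t O
  have hch : Ch p w (z' + (0 : ℝ) • dir θ) (z' + c.re • dir θ) := by
    rw [hw]
    refine ch_cross hp (by rw [zero_smul, add_zero]; exact hz'r) (fun m _ => sl_neg hp O m) ?_
      (by rw [hpos]; exact hyr)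
    intro m hm
    obtain ⟨w1, w2⟩ := hW m hm
    have hd : |(-1) ^ m * tv θ (z' - z1)| < δ := by
      rw [abs_mul, abs_pow, abs_neg, abs_one, one_pow, one_mul]
      exact htv c.re
    rw [t_shift n p z1 z' θ u m (u m), t_shift n p z1 z' θ u m (u m + 1)]
    exact sign_keep (hopp m) w1 w2 hd
  rw [zero_smul, add_zero] at hch
  have hinv := inv_fun hp hI hz'r hch
  have hfin : fd p w (z' + c.re • dir θ, θ) = (y, angs p θ u K) := by
    rw [hw, fd_word hp, hpos]
  rw [hfin] at hinv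
  rw [← hinv]
  exact hfz

theorem fx_inter (hp : IsConvexPolygon p) {f : ℂ × ℝ → ℝ} {C D : Set ℝ} {i : Fin (n + 3)} {θ : ℝ}
    (h1 : θ ∈ FX p ⊤ f C i) (h2 : θ ∈ FX p ⊤ f D i) : (C ∩ D).Nonempty := by
  rw [fx_iff] at h1 h2
  obtain ⟨r1, hr1, ha⟩ := h1
  obtain ⟨r2, hr2, hb⟩ := h2
  rw [eventually_top] at ha hb
  obtain ⟨z0, hz0, hz1⟩ := near_vertex hp i (lt_min hr1 hr2)
  exact ⟨f (z0, θ), ha z0 hz0 (hz1.trans_le (min_le_left _ _)),
    hb z0 hz0 (hz1.trans_le (min_le_right _ _))⟩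

/-- For almost every direction every orbit sees the sets as one of the vertices does. -/
theorem inside (hp : IsConvexPolygon p) (hirr : ∀ i, Irrational (ang p i / π)) :
    ∀ᵐ θ : ℝ, ∀ z ∈ reg p, Ok p z θ 0 → ∃ i,
      (∀ W ∈ Bas, (z, θ) ∈ Sat p W → Sees p i (Sat p W)) ∧
      ∀ W ∈ Bas, z ∈ interior {y : ℂ | (y, θ) ∉ Sat p W} → ¬ Sees p i (Sat p W) := by
  have h1 : ∀ᵐ θ : ℝ, ∀ W ∈ Bas, ∀ (w : List (Fin (n + 3))) (i : Fin (n + 3)),
      (Pool.Agent.N681.BP.fda p w θ ∈ FX p ⊤ (ind (Sat p W)) {1} i ↔ Sees p i (Sat p W)) := by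
    refine bas_all fun W hW => ?_
    rw [ae_all_iff]
    intro w
    rw [ae_all_iff]
    intro i
    rcases dich hp (good_top p) (ind_inv (sat_inv hp W).inv) (ms_top (sat_inv hp W).isOpen)
      (hirr i) with h | h
    · have h2 := measure_eq_zero_iff_ae_notMem.1 h
      have h3 : ¬ Sees p i (Sat p W) := by
        intro h4
        obtain ⟨θ, h5, h6⟩ := (h2.and h4).exists
        exact h5 h6
      filter_upwards [(Pool.Agent.N681.BP.mp_fda p w).quasiMeasurePreserving.ae h2] with θ h4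
      exact iff_of_false h4 h3
    · filter_upwards [(Pool.Agent.N681.BP.mp_fda p w).quasiMeasurePreserving.ae h] with θ h4
      exact iff_of_true h4 h
  filter_upwards [h1, Pool.Agent.N130.BP.t_allp n p hp] with θ hθ h2 z hz hok
  obtain ⟨u, t, O⟩ := exists_orb hp hok
  have hfirst : ∀ k : ℕ, ∃ (K : ℕ) (j : Fin (n + 3)), Wide p z θ u (1 / ((k : ℝ) + 1)) K ∧
      |vd p z θ u K j| < 1 / ((k : ℝ) + 1) := by
    intro k
    obtain ⟨K, hW, j, -, hjd⟩ := Pool.Agent.N329.BP.t_first n p hp z θ u t O (h2 z hz u t O)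
      (1 / ((k : ℝ) + 1)) (by positivity)
    exact ⟨K, j, hW, hjd⟩
  choose K j hWk hjk using hfirst
  -- a vertex which occurs infinitely often
  obtain ⟨i, hi⟩ : ∃ i, ∃ᶠ k in atTop, j k = i := by
    by_contra hcon
    push Not at hcon
    have h3 : ∀ i, ∀ᶠ k in atTop, j k ≠ i := hcon
    obtain ⟨k, hk⟩ := (eventually_all.2 h3).exists
    exact hk (j k) rfl
  have hlim : Tendsto (fun k : ℕ => 2 * (1 / ((k : ℝ) + 1))) atTop (𝓝 (2 * 0)) :=
    (tendsto_one_div_add_atTop_nhds_zero_nat (𝕜 := ℝ)).const_mul 2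
  rw [mul_zero] at hlim
  obtain ⟨ρ1, hρ1, hball⟩ := Metric.isOpen_iff.1 (reg_open hp) z hz
  have key : ∀ (f : ℂ × ℝ → ℝ) (C : Set ℝ), IsInvariantFun p f →
      (∀ᶠ y in 𝓝 z, f (y, θ) ∈ C) → ∃ w, Pool.Agent.N681.BP.fda p w θ ∈ FX p ⊤ f C i := by
    intro f C hI hev
    obtain ⟨ρ2, hρ2, hball2⟩ := Metric.eventually_nhds_iff.1 hev
    obtain ⟨k, hk, hk2⟩ := (hi.and_eventually
      (hlim.eventually_lt_const (lt_min hρ1 hρ2))).exists
    refine ⟨(List.range (K k)).map u, ?_⟩
    rw [← hk]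
    refine strip_fx hp hI O (hWk k) (hjk k) (fun y hy => ?_) (fun y hy => ?_)
    · apply hball
      rw [mem_ball_iff_norm]
      exact hy.trans (hk2.trans_le (min_le_left _ _))
    · apply hball2
      rw [dist_eq_norm]
      exact hy.trans (hk2.trans_le (min_le_right _ _))
  refine ⟨i, ?_, ?_⟩
  · intro W hW h3
    have hc : Continuous fun y : ℂ => (y, θ) := by fun_prop
    obtain ⟨w, hw⟩ := key (ind (Sat p W)) {1} (ind_inv (sat_inv hp W).inv) (by
      filter_upwards [((sat_inv hp W).isOpen.preimage hc).mem_nhds h3] with y hy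
      exact mem_one.2 hy)
    exact (hθ W hW w i).1 hw
  · intro W hW h3 h4
    obtain ⟨w, hw⟩ := key (ind (Sat p W)) {1}ᶜ (ind_inv (sat_inv hp W).inv) (by
      filter_upwards [isOpen_interior.mem_nhds h3] with y hy
      have h5 : (y, θ) ∉ Sat p W := interior_subset (s := {y : ℂ | (y, θ) ∉ Sat p W}) hy
      exact fun h6 => h5 (mem_one.1 h6))
    obtain ⟨x, hx1, hx2⟩ := fx_inter hp ((hθ W hW w i).2 h4) hw
    exact hx2 hx1

/-- residual sets of points -/
theorem ok_res (p : Fin (n + 3) → ℂ) (hp : IsConvexPolygon p) (θ : ℝ) :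
    ∀ᶠ z : ℂ in residual ℂ, z ∈ reg p → Ok p z θ 0 := by
  have htv : ∀ q : ℂ, Continuous fun z : ℂ => tv θ (q - z) := by
    intro q
    unfold tv
    fun_prop
  have hdd : conj (dir θ) * dir θ = 1 := Pool.Agent.N262.BP.conj_dir_mul θ
  have h1 : ∀ q : ℂ, ∀ᶠ z : ℂ in residual ℂ, tv θ (q - z) ≠ 0 := by
    intro q
    refine residual_of_dense_open (isOpen_ne_fun (htv q) continuous_const) ?_
    rw [Metric.dense_iff]
    intro z r hr
    by_cases h : tv θ (q - z) = 0
    · refine ⟨z + ((r / 2 : ℝ) : ℂ) * (I * dir θ), ?_, ?_⟩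
      · rw [mem_ball_iff_norm, add_sub_cancel_left, norm_mul, norm_mul, norm_I, norm_dir, one_mul,
          mul_one, norm_real, Real.norm_eq_abs, abs_of_pos (by linarith)]
        linarith
      · show tv θ (q - (z + ((r / 2 : ℝ) : ℂ) * (I * dir θ))) ≠ 0
        have e : tv θ (q - (z + ((r / 2 : ℝ) : ℂ) * (I * dir θ))) = tv θ (q - z) - r / 2 := by
          unfold tv
          have e2 : conj (dir θ) * (q - (z + ((r / 2 : ℝ) : ℂ) * (I * dir θ))) =
              conj (dir θ) * (q - z) - ((r / 2 : ℝ) : ℂ) * I := by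
            linear_combination (-((r / 2 : ℝ) : ℂ) * I) * hdd
          rw [e2, sub_im]
          congr 1
          simp
        rw [e, h]
        linarith
    · exact ⟨z, Metric.mem_ball_self hr, h⟩
  have h2 : ∀ᶠ z : ℂ in residual ℂ, ∀ (w : List (Fin (n + 3))) (j : Fin (n + 3)),
      tv θ (uf p w (p j) - z) ≠ 0 := by
    rw [eventually_countable_forall]
    intro w
    rw [eventually_countable_forall]
    intro j
    exact h1 _
  filter_upwards [h2] with z hz hzr
  refine ⟨?_, ?_⟩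
  · have hc : Continuous fun s : ℝ => z + s • dir θ := by fun_prop
    have h3 : ∀ᶠ s in 𝓝 (0 : ℝ), z + s • dir θ ∈ reg p :=
      hc.continuousAt ((reg_open hp).mem_nhds (by rw [zero_smul, add_zero]; exact hzr))
    obtain ⟨δ, hδ, hball⟩ := Metric.eventually_nhds_iff.1 h3
    refine ⟨δ, hδ, fun s h4 h5 => hball ?_⟩
    rw [Real.dist_eq, sub_zero, abs_of_pos h4]
    exact h5
  · intro w j s _ heq
    apply hz w j
    rw [← heq, add_sub_cancel_left]
    unfold tv
    have : conj (dir θ) * s • dir θ = (s : ℂ) := by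
      rw [real_smul]
      linear_combination (s : ℂ) * hdd
    rw [this, ofReal_im]

/-- (2) the orbit closures -/
theorem generic_closure (hp : IsConvexPolygon p) (hirr : ∀ i, Irrational (ang p i / π)) :
    ∀ᵐ θ : ℝ, (∀ᵐ z : ℂ, z ∈ region p → ∃ i, closure (Orbit p (z, θ)) ⊆ KK p i) ∧
      ∀ᶠ z : ℂ in residual ℂ, z ∈ region p → ∃ i, closure (Orbit p (z, θ)) = KK p i := by
  have hrr := region_eq hp
  filter_upwards [inside hp hirr, t_okae n p hp] with θ h1 h2
  constructor
  · filter_upwards [h2] with z hz hzr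
    obtain ⟨i, hi, -⟩ := h1 z (by rw [← hrr]; exact hzr) (hz (by rw [← hrr]; exact hzr))
    refine ⟨i, fun y hy W hW hyW => hi W hW ?_⟩
    exact (closure_iff hp (x := (z, θ)) hzr).1 hy W hW hyW
  · have h3 : ∀ᶠ z : ℂ in residual ℂ, ∀ W ∈ Bas, (z, θ) ∈ Sat p W ∨
        z ∈ interior {y : ℂ | (y, θ) ∉ Sat p W} := by
      rw [eventually_countable_ball bas_count]
      intro W hW
      have hc : Continuous fun y : ℂ => (y, θ) := by fun_prop
      have hU : IsOpen {y : ℂ | (y, θ) ∈ Sat p W} := (sat_inv hp W).isOpen.preimage hc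
      filter_upwards [coborder_mem_residual hU.isLocallyClosed] with z hz
      rw [coborder_eq_union_closure_compl] at hz
      rcases hz with h | h
      · exact Or.inl h
      · right
        rw [← interior_compl] at h
        exact h
    filter_upwards [h3, ok_res p hp θ] with z h4 h5 hzr
    obtain ⟨i, hi, hi2⟩ := h1 z (by rw [← hrr]; exact hzr) (h5 (by rw [← hrr]; exact hzr))
    refine ⟨i, ?_⟩
    ext y
    rw [closure_iff hp (x := (z, θ)) hzr]
    refine forall₂_congr fun W hW => imp_congr_right fun _ => ?_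
    constructor
    · exact hi W hW
    · intro h6
      rcases h4 W hW with h7 | h7
      · exact h7
      · exact absurd h6 (hi2 W hW h7)

/-- (3) the sets cover the phase space -/
theorem kk_cover (hp : IsConvexPolygon p) (hirr : ∀ i, Irrational (ang p i / π)) :
    region p ×ˢ (univ : Set ℝ) ⊆ ⋃ i, KK p i := by
  rintro ⟨z0, θ0⟩ ⟨hz0, -⟩
  by_contra hcon
  have hcl : IsClosed (⋃ i, KK p i) := isClosed_iUnion_of_finite kk_closed
  have hO : IsOpen ((⋃ i, KK p i)ᶜ ∩ region p ×ˢ (univ : Set ℝ)) :=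
    hcl.isOpen_compl.inter (isOpen_interior.prod isOpen_univ)
  obtain ⟨ρ, hρ, hball⟩ := Metric.isOpen_iff.1 hO (z0, θ0) ⟨hcon, hz0, trivial⟩
  obtain ⟨θ, hθ, hθ2⟩ := (Measure.dense_of_ae (generic_closure hp hirr)).inter_nhds_nonempty
    (Metric.ball_mem_nhds θ0 hρ)
  obtain ⟨z, hz, hz2⟩ := (Measure.dense_of_ae hθ.1).inter_nhds_nonempty
    (Metric.ball_mem_nhds z0 hρ)
  rw [Metric.mem_ball] at hθ2 hz2
  have h1 : (z, θ) ∈ Metric.ball (z0, θ0) ρ := by
    rw [Metric.mem_ball, Prod.dist_eq]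
    exact max_lt hz2 hθ2
  obtain ⟨h2, h3, -⟩ := hball h1
  obtain ⟨i, hi⟩ := hz h3
  exact h2 (mem_iUnion.2 ⟨i, hi (subset_closure (orbit_self _))⟩)

end Pool.Agent.U106.OX
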