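import Pool.Agent.U106.OX.Two

set_option autoImplicit false

/-!
Billiards in convex polygons: for almost every direction, values in `C` on one side of the line through
a vertex imply values in `C` near the vertex; by reflections this property does not depend on the
direction.
-/

namespace Pool.Agent.U106.OX

open Complex Set MeasureTheory Filter Topology Pool.Agent.W780.PG Pool.Agent.W780.BB
  Pool.Agent.TH103.BL Pool.Agent.N557.BP Pool.Agent.U106.BI Pool.Agent.U106.OI

open scoped Real ComplexConjugate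

variable {n : ℕ} {p : Fin (n + 3) → ℂ} {𝓕 : Filter ℂ}

/-! ### Reversal -/

theorem sx_rev {f : ℂ × ℝ → ℝ} {C : Set ℝ} {i : Fin (n + 3)} {σ r φ : ℝ} :
    φ ∈ SX p 𝓕 (fun x => f (x.1, x.2 + π)) C i σ r ↔ φ + π ∈ SX p 𝓕 f C i (-σ) r := by
  rw [sx_iff, sx_iff]
  simp only [sd_pi, neg_mul_neg]

theorem fx_rev {f : ℂ × ℝ → ℝ} {C : Set ℝ} {i : Fin (n + 3)} {φ : ℝ} :
    φ ∈ FX p 𝓕 (fun x => f (x.1, x.2 + π)) C i ↔ φ + π ∈ FX p 𝓕 f C i := by
  rw [fx_iff, fx_iff]

theorem ms_rev {f : ℂ × ℝ → ℝ} {C : Set ℝ} (hf : Ms 𝓕 f C) :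
    Ms 𝓕 (fun x : ℂ × ℝ => f (x.1, x.2 + π)) C := by
  intro O hO
  have hc : Continuous fun x : ℂ × ℝ => (x.1, x.2 - π) := by fun_prop
  have h := (measurable_id.add_const π) (hf _ (hO.preimage hc))
  convert h using 1
  ext θ
  simp only [mem_ofPred_eq, mem_preimage, id_eq, add_sub_cancel_right]

theorem two_in (hp : IsConvexPolygon p) (hG : Good p 𝓕) {f : ℂ × ℝ → ℝ} (hI : IsInvariantFun p f)
    {C : Set ℝ} (hf : Ms 𝓕 f C) (i : Fin (n + 3))
    {σ : ℝ} (hσ : σ = 1 ∨ σ = -1) :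
    ∀ᵐ θ : ℝ, sl p i θ < 0 → sl p (i - 1) θ < 0 →
      (∃ r : ℝ, 0 < r ∧ θ ∈ SX p 𝓕 f C i σ r) → θ ∈ FX p 𝓕 f C i := by
  have hgI : IsInvariantFun p (fun x : ℂ × ℝ => f (x.1, x.2 + π)) := rev_inv hI
  have hgm : Ms 𝓕 (fun x : ℂ × ℝ => f (x.1, x.2 + π)) C := ms_rev hf
  have hσ' : -σ = 1 ∨ -σ = -1 := by
    rcases hσ with rfl | rfl
    · right; rfl
    · left; norm_num
  have h1 := (measurePreserving_add_right (volume : Measure ℝ) (-π)).quasiMeasurePreserving.ae
    (two_out hp hG hgI hgm i hσ')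
  filter_upwards [h1] with θ hθ h2 h3 ⟨r, hr, hS⟩
  have e : ∀ k : Fin (n + 3), sl p k (θ + -π) = - sl p k θ := by
    intro k
    have := sl_pi (p := p) k (θ + -π)
    rw [neg_add_cancel_right] at this
    linarith
  have h4 := hθ (by rw [e]; linarith) (by rw [e]; linarith) ⟨r, hr, by
    rw [sx_rev, neg_add_cancel_right, neg_neg]; exact hS⟩
  rw [fx_rev, neg_add_cancel_right] at h4
  exact h4

/-! ### From balls to strips -/

theorem strip1 (hp : IsConvexPolygon p) (hG : Good p 𝓕) {f : ℂ × ℝ → ℝ} (hI : IsInvariantFun p f) {C : Set ℝ}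
    {j : Fin (n + 3)} {θ σ r s0 : ℝ} (hσ : σ = 1 ∨ σ = -1) (hr : 0 < r)
    (h0 : p j + s0 • dir θ ∈ reg p)
    (h : ∀ᶠ z : ℂ in 𝓕, z ∈ reg p → ‖z - p j‖ < r → 0 < σ * sd p j (z, θ) → f (z, θ) ∈ C) :
    ∃ r' : ℝ, 0 < r' ∧ θ ∈ SX p 𝓕 f C j σ r' := by
  have hrr := region_eq hp
  obtain ⟨s1, hs1, hP⟩ := inner_small hp h0 (half_pos hr)
  obtain ⟨ε, hε, hball⟩ := Metric.isOpen_iff.1 (reg_open hp) _ hP
  have hdd : conj (dir θ) * dir θ = 1 := Pool.Agent.N262.BP.conj_dir_mul θ
  refine ⟨min ε (r / 2), lt_min hε (half_pos hr), ?_⟩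
  rw [sx_iff]
  have hq : ∀ᶠ z : ℂ in 𝓕, ∀ q : ℚ, z + (q : ℝ) • dir θ ∈ reg p →
      ‖z + (q : ℝ) • dir θ - p j‖ < r → 0 < σ * sd p j (z + (q : ℝ) • dir θ, θ) →
      f (z + (q : ℝ) • dir θ, θ) ∈ C := by
    have := hG.cint
    rw [eventually_countable_forall]
    intro q
    exact (hG.add ((q : ℝ) • dir θ)).eventually h
  filter_upwards [hq] with z hz hzr h1 h2
  have hb : |sd p j (z, θ)| < min ε (r / 2) := by
    rcases hσ with rfl | rfl
    · rw [one_mul] at h1 h2
      rw [abs_of_pos h1]; exact h2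
    · rw [abs_of_neg (by linarith)]; linarith
  set c : ℂ := conj (dir θ) * (z - p j) with hc
  have hcz : z - p j = c * dir θ := by
    rw [hc]
    linear_combination (-(z - p j)) * hdd
  have hcim : c.im = sd p j (z, θ) := rfl
  have hkey : ∀ τ : ℝ, z + τ • dir θ - (p j + s1 • dir θ) = (c + τ - s1) * dir θ := by
    intro τ
    rw [real_smul, real_smul]
    linear_combination hcz
  have hnorm : ‖z + (s1 - c.re) • dir θ - (p j + s1 • dir θ)‖ < min ε (r / 2) := by
    rw [hkey, norm_mul, norm_dir, mul_one]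
    have e : c + ((s1 - c.re : ℝ) : ℂ) - s1 = (c.im : ℂ) * I := by
      apply Complex.ext
      · simp
      · simp
    rw [e, norm_mul, norm_I, mul_one, norm_real, Real.norm_eq_abs, hcim]
    exact hb
  have hcont : Continuous fun τ : ℝ => ‖z + τ • dir θ - (p j + s1 • dir θ)‖ := by fun_prop
  have hev : ∀ᶠ τ in 𝓝 (s1 - c.re), ‖z + τ • dir θ - (p j + s1 • dir θ)‖ < min ε (r / 2) :=
    (hcont.tendsto _).eventually_lt_const hnorm
  obtain ⟨δ, hδ, hδb⟩ := Metric.eventually_nhds_iff.1 hev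
  obtain ⟨q, hq1, hq2⟩ := exists_rat_btwn (show s1 - c.re < s1 - c.re + δ by linarith)
  have h3 := hδb (y := (q : ℝ)) (by rw [Real.dist_eq, abs_of_pos (by linarith)]; linarith)
  have h4 : z + (q : ℝ) • dir θ ∈ reg p := by
    apply hball
    rw [mem_ball_iff_norm]
    exact h3.trans_le (min_le_left _ _)
  have h5 : ‖z + (q : ℝ) • dir θ - p j‖ < r := by
    calc ‖z + (q : ℝ) • dir θ - p j‖ = ‖(z + (q : ℝ) • dir θ - (p j + s1 • dir θ)) + s1 • dir θ‖ := by
          congr 1; ring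
      _ ≤ ‖z + (q : ℝ) • dir θ - (p j + s1 • dir θ)‖ + ‖s1 • dir θ‖ := norm_add_le _ _
      _ < r := by
          rw [norm_smul, norm_dir, mul_one, Real.norm_eq_abs]
          have := h3.trans_le (min_le_right _ _)
          linarith
  have h6 : sd p j (z + (q : ℝ) • dir θ, θ) = sd p j (z, θ) := by
    unfold sd
    simp only
    have e : conj (dir θ) * (z + (q : ℝ) • dir θ - p j) = conj (dir θ) * (z - p j) + ((q : ℝ) : ℂ) := by
      rw [real_smul]
      linear_combination ((q : ℝ) : ℂ) * hdd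
    rw [e, add_im, ofReal_im, add_zero]
  have h7 := hz q h4 h5 (by rw [h6]; exact h1)
  rw [hI.free z θ q (by rw [hrr]; exact hzr) (by rw [hrr]; exact h4)]
  exact h7

/-- Reflection in a side at the vertex, for the points which hit this side near the vertex. -/
theorem refl_one (hp : IsConvexPolygon p) (hG : Good p 𝓕) {f : ℂ × ℝ → ℝ} (hI : IsInvariantFun p f) {C : Set ℝ}
    {i a b : Fin (n + 3)} (hia : i = a ∨ i = a + 1) {θ : ℝ} (hne : sl p a θ ≠ 0)
    (hj : ∀ j, j ≠ a → j ≠ b → 0 < sf p j (p i)) (hF : 2 * tau p a - θ ∈ FX p 𝓕 f C i)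
    (Q : ℂ → Prop) (hQ : ∀ z ∈ reg p, Q z → 0 < sf p b z + (sf p a z / (- sl p a θ)) * sl p b θ) :
    ∃ r : ℝ, 0 < r ∧ ∀ᶠ z : ℂ in 𝓕, z ∈ reg p → ‖z - p i‖ < r → Q z → f (z, θ) ∈ C := by
  rw [fx_iff] at hF
  obtain ⟨r', hr', hae⟩ := hF
  have hrr := region_eq hp
  have h0 : sf p a (p i) = 0 := by
    rcases hia with rfl | rfl
    · exact sf_self_left _
    · have := sf_self_right (p := p) (a + 1)
      rwa [add_sub_cancel_right] at this
  set θ' : ℝ := 2 * tau p a - θ with hθ'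
  have hnear : ∀ᶠ y in 𝓝 (p i), ∀ j, j ≠ a → j ≠ b → 0 < sf p j y := by
    rw [eventually_all]
    intro j
    by_cases h1 : j ≠ a ∧ j ≠ b
    · filter_upwards [((sf_cont p j).tendsto (p i)).eventually_const_lt (hj j h1.1 h1.2)]
        with y hy _ _ using hy
    · exact Eventually.of_forall fun _ h2 h3 => absurd ⟨h2, h3⟩ h1
  obtain ⟨ε, hε, hnear⟩ := Metric.eventually_nhds_iff.1 hnear
  set T : ℂ → ℝ := fun z => sf p a z / (- sl p a θ) with hT
  set M : ℝ := ‖p (a + 1) - p a‖ / |sl p a θ| with hM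
  have hC0 : 0 ≤ M := by positivity
  have hTC : ∀ z, |T z| ≤ M * ‖z - p i‖ := by
    intro z
    have h1 := sf_lip p a z (p i)
    rw [h0, sub_zero] at h1
    rw [hT]
    simp only
    rw [abs_div, abs_neg, hM, div_mul_eq_mul_div]
    exact div_le_div_of_nonneg_right h1 (abs_nonneg _)
  have hYz : ∀ z, sf p a (z + T z • dir θ) = 0 := by
    intro z
    rw [sf_ray, hT]
    field_simp
    ring
  have hWY : ∀ (z : ℂ) (q : ℝ),
      rf p a z + q • dir θ' = z + T z • dir θ + (q - T z) • dir θ' := by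
    intro z q
    have h1 := rf_fix hp a _ (hYz z)
    rw [rf_ray hp] at h1
    rw [← h1, sub_smul]
    ring
  have hWae : ∀ᶠ z : ℂ in 𝓕, ∀ q : ℚ, rf p a z + (q : ℝ) • dir θ' ∈ reg p →
      ‖rf p a z + (q : ℝ) • dir θ' - p i‖ < r' →
      f (rf p a z + (q : ℝ) • dir θ', θ') ∈ C := by
    have := hG.cint
    rw [eventually_countable_forall]
    intro q
    exact ((hG.add ((q : ℝ) • dir θ')).comp (hG.rfl a)).eventually hae
  refine ⟨min ε r' / (M + 1), by positivity, ?_⟩
  filter_upwards [hWae] with z hz hzreg hzn hQz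
  rw [lt_div_iff₀ (by positivity)] at hzn
  have hzr : z ∈ region p := hrr ▸ hzreg
  set y : ℂ := z + T z • dir θ with hy
  have hyn : ‖y - p i‖ < min ε r' := by
    calc ‖y - p i‖ = ‖(z - p i) + T z • dir θ‖ := by rw [hy]; congr 1; ring
      _ ≤ ‖z - p i‖ + ‖T z • dir θ‖ := norm_add_le _ _
      _ ≤ ‖z - p i‖ + M * ‖z - p i‖ := by
        rw [norm_smul, norm_dir, mul_one, Real.norm_eq_abs]
        linarith [hTC z]
      _ < _ := by linarith
  have hya : sf p a y = 0 := hYz z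
  have hza : 0 < sf p a z := hzreg a
  have hyb : 0 < sf p b y := by
    rw [hy, sf_ray]
    exact hQ z hzreg hQz
  have hyj : ∀ j, j ≠ a → 0 < sf p j y := by
    intro j h1
    by_cases h2 : j = b
    · rw [h2]; exact hyb
    · exact hnear (by rw [dist_eq_norm]; exact hyn.trans_le (min_le_left _ _)) j h1 h2
  have hside : y ∈ side p a := Pool.Agent.W82.BB.mem_side hp hya hyj
  have hev : ∀ᶠ s : ℝ in 𝓝 0, (∀ j, j ≠ a → 0 < sf p j (y + s • dir θ')) ∧
      ‖y + s • dir θ' - p i‖ < r' := by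
    refine Eventually.and ?_ ?_
    · rw [eventually_all]
      intro j
      by_cases h1 : j = a
      · exact Eventually.of_forall fun _ h => absurd h1 h
      · have hc : Continuous fun s : ℝ => sf p j (y + s • dir θ') :=
          (sf_cont p j).comp (by fun_prop)
        have h2 : 0 < sf p j (y + (0 : ℝ) • dir θ') := by
          rw [zero_smul, add_zero]; exact hyj j h1
        filter_upwards [(hc.tendsto 0).eventually_const_lt h2] with s hs _ using hs
    · have hc : Continuous fun s : ℝ => ‖y + s • dir θ' - p i‖ := by fun_prop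
      have h2 : ‖y + (0 : ℝ) • dir θ' - p i‖ < r' := by
        rw [zero_smul, add_zero]; exact hyn.trans_le (min_le_right _ _)
      exact (hc.tendsto 0).eventually_lt_const h2
  obtain ⟨δ, hδ, hball⟩ := Metric.eventually_nhds_iff.1 hev
  have hslr : sl p a θ' = - sl p a θ := sl_refl hp a θ
  have hin : ∀ s : ℝ, |s| < δ → 0 < s * (- sl p a θ) →
      y + s • dir θ' ∈ reg p ∧ ‖y + s • dir θ' - p i‖ < r' := by
    intro s h1 h2
    obtain ⟨h3, h4⟩ := hball (y := s) (by rw [Real.dist_eq, sub_zero]; exact h1)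
    refine ⟨fun j => ?_, h4⟩
    by_cases h5 : j = a
    · show 0 < sf p j _
      rw [h5, sf_ray, hya, zero_add, hslr]; exact h2
    · exact h3 j h5
  rcases lt_or_gt_of_ne hne with hneg | hpos
  · have hTpos : 0 < T z := div_pos hza (by linarith)
    obtain ⟨q, hq1, hq2⟩ := exists_rat_btwn (show T z < T z + δ by linarith)
    obtain ⟨h1, h2⟩ := hin ((q : ℝ) - T z) (by rw [abs_of_pos (by linarith)]; linarith)
      (mul_pos (by linarith) (by linarith))
    have h3 := hI.reflect a y hside θ (T z) (q - T z) hTpos (by linarith)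
      (by rw [hy, add_sub_cancel_right]; exact hzr) (by rw [hrr]; exact h1)
    have h4 := hz q (by rw [hWY]; exact h1) (by rw [hWY]; exact h2)
    rw [hWY] at h4
    have h5 : y - T z • dir θ = z := by rw [hy, add_sub_cancel_right]
    rw [h5] at h3
    rw [h3]
    exact h4
  · have hTneg : T z < 0 := div_neg_of_pos_of_neg hza (by linarith)
    obtain ⟨q, hq1, hq2⟩ := exists_rat_btwn (show T z - δ < T z by linarith)
    obtain ⟨h1, h2⟩ := hin ((q : ℝ) - T z) (by rw [abs_of_neg (by linarith)]; linarith)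
      (mul_pos_of_neg_of_neg (by linarith) (by linarith))
    have e1 : y - (T z - q) • dir θ' = y + ((q : ℝ) - T z) • dir θ' := by
      rw [sub_eq_add_neg, ← neg_smul, neg_sub]
    have e2 : 2 * tau p a - θ' = θ := by rw [hθ']; ring
    have e3 : y + (- T z) • dir θ = z := by
      rw [hy, neg_smul]; ring
    have h3 := hI.reflect a y hside θ' (T z - q) (- T z) (by linarith) (by linarith)
      (by rw [e1, hrr]; exact h1) (by rw [e2, e3]; exact hzr)
    rw [e1, e2, e3] at h3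
    have h4 := hz q (by rw [hWY]; exact h1) (by rw [hWY]; exact h2)
    rw [hWY] at h4
    rw [← h3]
    exact h4

/-- The reflections at a vertex do not change the property. -/
theorem refl_ae (hp : IsConvexPolygon p) (hG : Good p 𝓕) {f : ℂ × ℝ → ℝ} (hI : IsInvariantFun p f)
    {C : Set ℝ} (hf : Ms 𝓕 f C) {i a : Fin (n + 3)}
    (hia : i = a ∨ i = a + 1) :
    ∀ᵐ θ : ℝ, 2 * tau p a - θ ∈ FX p 𝓕 f C i → θ ∈ FX p 𝓕 f C i := by
  filter_upwards [ae_sl hp i, ae_sl hp (i - 1), ae_sl hp a, two_out hp hG hI hf i (Or.inl rfl),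
    two_out hp hG hI hf i (Or.inr rfl), two_in hp hG hI hf i (Or.inl rfl),
    two_in hp hG hI hf i (Or.inr rfl)] with θ s1 s2 s3 o1 o2 q1 q2 hF
  obtain ⟨b, hb1, hb2, hb3, hb4⟩ := other1 hp hia θ
  have h0 : sf p a (p i) = 0 := by
    rcases hia with rfl | rfl
    · exact sf_self_left _
    · have := sf_self_right (p := p) (a + 1)
      rwa [add_sub_cancel_right] at this
  rcases lt_or_gt_of_ne (mul_ne_zero s1 s2) with h | h
  · -- all lines near the vertex hit the side
    obtain ⟨r, hr, hae⟩ := refl_one hp hG hI hia s3 hb4 hF (fun _ => True) (by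
      intro z hz _
      have h1 : 0 < sf p b z := hz b
      have h2 : 0 < sf p a z := hz a
      have h3 : sl p a θ * sl p b θ < 0 := by rw [hb1]; exact h
      have h4 : 0 < (sf p a z / (- sl p a θ)) * sl p b θ := by
        have h5 : (sf p a z / (- sl p a θ)) * sl p b θ =
            sf p a z * (-(sl p a θ * sl p b θ)) / (sl p a θ) ^ 2 := by
          field_simp
        rw [h5]
        exact div_pos (mul_pos h2 (by linarith)) (by positivity)
      linarith)
    rw [fx_iff]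
    exact ⟨r, hr, by filter_upwards [hae] with z hz h1 h2 using hz h1 h2 trivial⟩
  · -- one side of the line
    obtain ⟨σ, hσ, hσ2⟩ : ∃ σ : ℝ, (σ = 1 ∨ σ = -1) ∧
        0 < σ * ((conj (p (a + 1) - p a) * (p (b + 1) - p b)).im / sl p a θ) := by
      rcases lt_or_gt_of_ne (div_ne_zero hb3 s3) with h1 | h1
      · exact ⟨-1, Or.inr rfl, by linarith⟩
      · exact ⟨1, Or.inl rfl, by linarith⟩
    have hss : σ * σ = 1 := by
      rcases hσ with rfl | rfl <;> norm_num
    obtain ⟨r, hr, hae⟩ := refl_one hp hG hI hia s3 hb4 hF (fun z => 0 < σ * sd p i (z, θ)) (by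
      intro z hz h1
      rw [other_value h0 hb2 s3]
      have h2 := mul_pos hσ2 h1
      have h3 : σ * ((conj (p (a + 1) - p a) * (p (b + 1) - p b)).im / sl p a θ) *
          (σ * sd p i (z, θ)) = (σ * σ) *
          (((conj (p (a + 1) - p a) * (p (b + 1) - p b)).im / sl p a θ) * sd p i (z, θ)) := by
        ring
      rw [h3, hss, one_mul] at h2
      exact h2)
    rcases lt_or_gt_of_ne s1 with h1 | h1
    · have h2 : sl p (i - 1) θ < 0 := by
        by_contra hc
        exact absurd h (not_lt.2 (mul_nonpos_of_nonpos_of_nonneg h1.le (not_lt.1 hc)))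
      obtain ⟨s, hs⟩ := Pool.Agent.N700.BP.inner hp i (σ := -1) (θ := θ) (by linarith) (by linarith)
      obtain ⟨r', hr', hS⟩ := strip1 hp hG hI hσ hr hs hae
      rcases hσ with rfl | rfl
      · exact q1 h1 h2 ⟨r', hr', hS⟩
      · exact q2 h1 h2 ⟨r', hr', hS⟩
    · have h2 : 0 < sl p (i - 1) θ := (mul_pos_iff_of_pos_left h1).1 h
      obtain ⟨s, hs⟩ := Pool.Agent.N700.BP.inner hp i (σ := 1) (θ := θ) (by linarith) (by linarith)
      obtain ⟨r', hr', hS⟩ := strip1 hp hG hI hσ hr hs hae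
      rcases hσ with rfl | rfl
      · exact o1 h1 h2 ⟨r', hr', hS⟩
      · exact o2 h1 h2 ⟨r', hr', hS⟩

/-- **The dichotomy.** -/
theorem dich (hp : IsConvexPolygon p) (hG : Good p 𝓕) {f : ℂ × ℝ → ℝ} (hI : IsInvariantFun p f)
    {C : Set ℝ} (hf : Ms 𝓕 f C) {i : Fin (n + 3)}
    (hirr : Irrational (ang p i / π)) :
    volume (FX p 𝓕 f C i) = 0 ∨ ∀ᵐ θ : ℝ, θ ∈ FX p 𝓕 f C i := by
  have hone : ∀ a : Fin (n + 3), (i = a ∨ i = a + 1) → ∀ᵐ θ : ℝ,
      (2 * tau p a - θ ∈ FX p 𝓕 f C i ↔ θ ∈ FX p 𝓕 f C i) := by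
    intro a hia
    have h1 := refl_ae hp hG hI hf hia
    have h2 : ∀ᵐ θ : ℝ, 2 * tau p a - (2 * tau p a - θ) ∈ FX p 𝓕 f C i →
        2 * tau p a - θ ∈ FX p 𝓕 f C i :=
      (Measure.measurePreserving_sub_left (volume : Measure ℝ)
        (2 * tau p a)).quasiMeasurePreserving.ae h1
    filter_upwards [h1, h2] with θ e1 e2
    rw [sub_sub_cancel] at e2
    exact ⟨e1, e2⟩
  obtain ⟨k, hk⟩ := Pool.Agent.W337.BB.tau_th n p hp i
  have hirr2 : Irrational ((tau p i - tau p (i - 1)) / π) := by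
    rw [hk]
    have : (π - ang p i + 2 * k * π) / π = ((1 + 2 * k : ℤ) : ℝ) - ang p i / π := by
      have := Real.pi_ne_zero
      field_simp
      push_cast
      ring
    rw [this]
    exact hirr.intCast_sub _
  rcases Pool.Agent.W363.BB.rot (FX p 𝓕 f C i) (tau p i) (tau p (i - 1)) (fx_meas hp hf i)
    (fun θ => fx_per hI C i θ) (hone i (Or.inl rfl))
    (hone (i - 1) (Or.inr (by rw [sub_add_cancel]))) hirr2 with h | h
  · exact Or.inl h
  · right
    filter_upwards [measure_eq_zero_iff_ae_notMem.1 h] with θ h1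
    by_contra hc
    exact h1 hc

end Pool.Agent.U106.OX
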