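import Pool.Agent.U106.OX.Cross
import Mathlib.Topology.Baire.BaireMeasurable
import Mathlib.Topology.Baire.Lemmas

set_option autoImplicit false

/-!
Billiards in convex polygons: the directions for which an invariant function has its values in a set
in a one-sided strip beside a vertex, or near the vertex, up to exceptional sets of a given filter on
the plane.
-/

namespace Pool.Agent.U106.OX

open Complex Set MeasureTheory Filter Topology Pool.Agent.W780.PG Pool.Agent.W780.BB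
  Pool.Agent.TH103.BL Pool.Agent.N557.BP Pool.Agent.U106.BI Pool.Agent.U106.OI

open scoped Real ComplexConjugate

variable {n : ℕ} {p : Fin (n + 3) → ℂ}

/-- filters of large sets in the plane -/
structure Good (p : Fin (n + 3) → ℂ) (𝓕 : Filter ℂ) : Prop where
  cint : CountableInterFilter 𝓕
  add : ∀ c : ℂ, Tendsto (fun z : ℂ => z + c) 𝓕 𝓕
  rfl : ∀ i, Tendsto (rf p i) 𝓕 𝓕
  dense : ∀ S ∈ 𝓕, Dense S

theorem good_top (p : Fin (n + 3) → ℂ) : Good p ⊤ where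
  cint := ⟨by
    intro S _ hS
    rw [mem_top]
    refine eq_univ_of_forall fun x => mem_sInter.2 fun T hT => ?_
    rw [mem_top.1 (hS T hT)]
    exact mem_univ x⟩
  add := fun _ => tendsto_top
  rfl := fun _ => tendsto_top
  dense := fun S hS => by
    rw [mem_top.1 hS]
    exact dense_univ

theorem good_residual (hp : IsConvexPolygon p) : Good p (residual ℂ) where
  cint := inferInstance
  add := fun c => (Homeomorph.addRight c).residual_map_eq.le
  rfl := fun i => by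
    have h : Continuous (rf p i) := by unfold rf; fun_prop
    let g : ℂ ≃ₜ ℂ :=
      { toFun := rf p i
        invFun := rf p i
        left_inv := fun z => rf_rf hp i z
        right_inv := fun z => rf_rf hp i z
        continuous_toFun := h
        continuous_invFun := h }
    exact g.residual_map_eq.le
  dense := fun S hS => dense_of_mem_residual hS

/-- the directions for which the function has its values in `C` in the strip -/
def SX (p : Fin (n + 3) → ℂ) (𝓕 : Filter ℂ) (f : ℂ × ℝ → ℝ) (C : Set ℝ) (j : Fin (n + 3))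
    (σ r : ℝ) : Set ℝ :=
  {θ | ∀ᶠ z : ℂ in 𝓕, z ∈ reg p → 0 < σ * sd p j (z, θ) → σ * sd p j (z, θ) < r → f (z, θ) ∈ C}

/-- the directions for which the function has its values in `C` near `p i` -/
def FX (p : Fin (n + 3) → ℂ) (𝓕 : Filter ℂ) (f : ℂ × ℝ → ℝ) (C : Set ℝ) (i : Fin (n + 3)) :
    Set ℝ :=
  {θ | ∃ m : ℕ, ∀ᶠ z : ℂ in 𝓕, z ∈ reg p → ‖z - p i‖ < 1 / ((m : ℝ) + 1) → f (z, θ) ∈ C}

/-- measurability of the properties of slices -/
def Ms (𝓕 : Filter ℂ) (f : ℂ × ℝ → ℝ) (C : Set ℝ) : Prop :=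
  ∀ O : Set (ℂ × ℝ), IsOpen O → MeasurableSet {θ : ℝ | ∀ᶠ z : ℂ in 𝓕, (z, θ) ∈ O → f (z, θ) ∈ C}

variable {𝓕 : Filter ℂ}

theorem fx_iff {f : ℂ × ℝ → ℝ} {C : Set ℝ} {i : Fin (n + 3)} {θ : ℝ} :
    θ ∈ FX p 𝓕 f C i ↔ ∃ r : ℝ, 0 < r ∧
      ∀ᶠ z : ℂ in 𝓕, z ∈ reg p → ‖z - p i‖ < r → f (z, θ) ∈ C := by
  constructor
  · rintro ⟨m, hm⟩
    exact ⟨1 / ((m : ℝ) + 1), by positivity, hm⟩
  · rintro ⟨r, hr, h⟩
    obtain ⟨m, hm⟩ := exists_nat_one_div_lt hr
    refine ⟨m, ?_⟩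
    filter_upwards [h] with z hz h1 h2
    exact hz h1 (lt_trans h2 hm)

theorem sx_iff {f : ℂ × ℝ → ℝ} {C : Set ℝ} {j : Fin (n + 3)} {σ r θ : ℝ} :
    θ ∈ SX p 𝓕 f C j σ r ↔ ∀ᶠ z : ℂ in 𝓕, z ∈ reg p → 0 < σ * sd p j (z, θ) →
      σ * sd p j (z, θ) < r → f (z, θ) ∈ C := Iff.rfl

theorem sx_meas (hp : IsConvexPolygon p) {f : ℂ × ℝ → ℝ} {C : Set ℝ} (hf : Ms 𝓕 f C)
    (j : Fin (n + 3)) (σ r : ℝ) : MeasurableSet (SX p 𝓕 f C j σ r) := by
  have hO : IsOpen {x : ℂ × ℝ | x.1 ∈ reg p ∧ 0 < σ * sd p j x ∧ σ * sd p j x < r} := by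
    have h2 : Continuous fun x : ℂ × ℝ => σ * sd p j x := continuous_const.mul (sd_cont p j)
    exact ((reg_open hp).preimage continuous_fst).inter
      ((isOpen_lt continuous_const h2).inter (isOpen_lt h2 continuous_const))
  have h := hf _ hO
  have e : SX p 𝓕 f C j σ r = {θ : ℝ | ∀ᶠ z : ℂ in 𝓕, (z, θ) ∈
      {x : ℂ × ℝ | x.1 ∈ reg p ∧ 0 < σ * sd p j x ∧ σ * sd p j x < r} → f (z, θ) ∈ C} := by
    ext θ
    rw [sx_iff]
    refine eventually_congr (Eventually.of_forall fun z => ?_)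
    constructor
    · rintro h1 ⟨h2, h3, h4⟩
      exact h1 h2 h3 h4
    · intro h1 h2 h3 h4
      exact h1 ⟨h2, h3, h4⟩
  rw [e]
  exact h

theorem fx_meas (hp : IsConvexPolygon p) {f : ℂ × ℝ → ℝ} {C : Set ℝ} (hf : Ms 𝓕 f C)
    (i : Fin (n + 3)) : MeasurableSet (FX p 𝓕 f C i) := by
  have h1 : FX p 𝓕 f C i = ⋃ m : ℕ, {θ : ℝ | ∀ᶠ z : ℂ in 𝓕, (z, θ) ∈
      {x : ℂ × ℝ | x.1 ∈ reg p ∧ ‖x.1 - p i‖ < 1 / ((m : ℝ) + 1)} → f (z, θ) ∈ C} := by
    ext θ
    simp only [FX, mem_iUnion, mem_ofPred_eq, and_imp]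
  rw [h1]
  refine MeasurableSet.iUnion fun m => hf _ ?_
  have h2 : Continuous fun x : ℂ × ℝ => ‖x.1 - p i‖ := by fun_prop
  exact ((reg_open hp).preimage continuous_fst).inter (isOpen_lt h2 continuous_const)

theorem sx_per {f : ℂ × ℝ → ℝ} (hI : IsInvariantFun p f) (C : Set ℝ) (j : Fin (n + 3))
    (σ r θ : ℝ) : θ + 2 * π ∈ SX p 𝓕 f C j σ r ↔ θ ∈ SX p 𝓕 f C j σ r := by
  rw [sx_iff, sx_iff]
  simp only [hI.periodic, sd_per]

theorem fx_per {f : ℂ × ℝ → ℝ} (hI : IsInvariantFun p f) (C : Set ℝ) (i : Fin (n + 3))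
    (θ : ℝ) : θ + 2 * π ∈ FX p 𝓕 f C i ↔ θ ∈ FX p 𝓕 f C i := by
  rw [fx_iff, fx_iff]
  simp only [hI.periodic]

theorem sx_dir {f : ℂ × ℝ → ℝ} (hI : IsInvariantFun p f) {C : Set ℝ} {j : Fin (n + 3)}
    {σ r φ ψ : ℝ} (h : dir φ = dir ψ) (hψ : ψ ∈ SX p 𝓕 f C j σ r) : φ ∈ SX p 𝓕 f C j σ r := by
  obtain ⟨k, rfl⟩ := dir_eq_iff h
  exact (per_int (fun x => sx_per hI C j σ r x) k ψ).2 hψ

theorem sx_mono {f : ℂ × ℝ → ℝ} {C : Set ℝ} {j : Fin (n + 3)} {σ r r' : ℝ} (h : r' ≤ r) :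
    SX p 𝓕 f C j σ r ⊆ SX p 𝓕 f C j σ r' := by
  intro θ hθ
  rw [sx_iff] at hθ ⊢
  filter_upwards [hθ] with z hz h1 h2 h3
  exact hz h1 h2 (lt_of_lt_of_le h3 h)

theorem Good.fp (hG : Good p 𝓕) (w : List (Fin (n + 3))) : Tendsto (fp p w) 𝓕 𝓕 := by
  induction w with
  | nil => exact tendsto_id
  | cons i w ih => exact ih.comp (hG.rfl i)

theorem Good.uf (hG : Good p 𝓕) (w : List (Fin (n + 3))) : Tendsto (uf p w) 𝓕 𝓕 := by
  induction w with
  | nil => exact tendsto_id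
  | cons i w ih => exact (hG.rfl i).comp ih

/-- Transport of the values near a point of the orbit back to the starting vertex. -/
theorem transport1 (hp : IsConvexPolygon p) (hG : Good p 𝓕) {f : ℂ × ℝ → ℝ}
    (hI : IsInvariantFun p f)
    {C : Set ℝ} {i j : Fin (n + 3)} {θ r σ : ℝ} {u : ℕ → Fin (n + 3)} {t : ℕ → ℝ} {K : ℕ}
    (O : Orb p (p i) θ u t) (h1 : 0 < σ * vd p (p i) θ u K j) (h2 : σ * vd p (p i) θ u K j < r)
    (hS : angs p θ u K ∈ SX p 𝓕 f C j σ r) : θ ∈ FX p 𝓕 f C i := by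
  have htp := tp_lt O K
  obtain ⟨s, hs1, hs2⟩ : ∃ s, tp t K < s ∧ s < t K := ⟨(tp t K + t K) / 2, by linarith, by linarith⟩
  set l := (List.range K).map u with hl
  have hch : Ch p l (p i) (p i + s • dir θ) := orb_ch hp O hs1 hs2
  have hc : Continuous fun z : ℂ => z + s • dir θ := by fun_prop
  have e1 : ∀ᶠ z in 𝓝 (p i), Ch p l z (z + s • dir θ) :=
    ((Pool.Agent.W762.BB.open_it n p hp l).preimage (continuous_id.prodMk hc)).mem_nhds hch
  have hsd : Continuous fun z : ℂ => σ * sd p j (fd p l (z + s • dir θ, θ)) :=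
    continuous_const.mul ((sd_cont p j).comp ((fd_cont hp l).comp (hc.prodMk continuous_const)))
  have hval : sd p j (fd p l (p i + s • dir θ, θ)) = vd p (p i) θ u K j := by
    rw [hl, fd_word hp]
    unfold vd sd
    simp only
    have h3 := Pool.Agent.N262.BP.conj_dir_mul (angs p θ u K)
    have h4 : conj (dir (angs p θ u K)) * (srcs p (p i) u K + s • dir (angs p θ u K) - p j) =
        conj (dir (angs p θ u K)) * (srcs p (p i) u K - p j) + ((s : ℝ) : ℂ) := by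
      rw [real_smul]
      linear_combination ((s : ℝ) : ℂ) * h3
    rw [h4, add_im, ofReal_im, add_zero]
  have e2 : ∀ᶠ z in 𝓝 (p i), 0 < σ * sd p j (fd p l (z + s • dir θ, θ)) :=
    (hsd.tendsto (p i)).eventually_const_lt (by rw [hval]; exact h1)
  have e3 : ∀ᶠ z in 𝓝 (p i), σ * sd p j (fd p l (z + s • dir θ, θ)) < r :=
    (hsd.tendsto (p i)).eventually_lt_const (by rw [hval]; exact h2)
  obtain ⟨δ, hδ, hball⟩ := Metric.eventually_nhds_iff.1 (e1.and (e2.and e3))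
  rw [fx_iff]
  refine ⟨δ, hδ, ?_⟩
  have hmp : Tendsto (fun z : ℂ => fp p l (z + s • dir θ)) 𝓕 𝓕 :=
    (hG.fp l).comp (hG.add (s • dir θ))
  rw [sx_iff] at hS
  filter_upwards [hmp.eventually hS] with z hz b1 b2
  obtain ⟨c1, c2, c3⟩ := hball (y := z) (by rw [dist_eq_norm]; exact b2)
  have hfd : fd p l (z + s • dir θ, θ) = (Pool.Agent.W780.BB.fp p l (z + s • dir θ), angs p θ u K) := by
    have h3 := Pool.Agent.N681.BP.fd_eq p l (z + s • dir θ) θ
    have h4 : (fd p l (z + s • dir θ, θ)).2 = angs p θ u K := by rw [hl, fd_word hp]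
    rw [h3] at h4 ⊢
    rw [← h4]
  rw [inv_fun hp hI b1 c1]
  rw [hfd] at c2 c3 ⊢
  exact hz (ch_mem l _ _ c1) c2 c3

end Pool.Agent.U106.OX
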