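import Pool.Agent.U106.OX.Refl

set_option autoImplicit false

/-!
Billiards in convex polygons: if the values of a slice are in `C` on an open set, then near a vertex.
-/

namespace Pool.Agent.U106.OX

open Complex Set MeasureTheory Filter Topology Pool.Agent.W780.PG Pool.Agent.W780.BB
  Pool.Agent.TH103.BL Pool.Agent.N557.BP Pool.Agent.U106.BI Pool.Agent.U106.OI

open scoped Real ComplexConjugate

variable {n : ℕ} {p : Fin (n + 3) → ℂ} {𝓕 : Filter ℂ}

/-- The values of the slice in the direction `θ` are in `C` on a nonempty open subset of the polygon,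
up to a small set. -/
def Op (p : Fin (n + 3) → ℂ) (𝓕 : Filter ℂ) (f : ℂ × ℝ → ℝ) (C : Set ℝ) (θ : ℝ) : Prop :=
  ∃ z0 ∈ reg p, ∃ ρ : ℝ, 0 < ρ ∧ ∀ᶠ z : ℂ in 𝓕, z ∈ reg p → ‖z - z0‖ < ρ → f (z, θ) ∈ C

theorem sign_keep {A B d δ : ℝ} (h : A * B < 0) (hA : δ ≤ |A|) (hB : δ ≤ |B|) (hd : |d| < δ) :
    (A + d) * (B + d) < 0 := by
  obtain ⟨d1, d2⟩ := abs_lt.1 hd
  rcases mul_neg_iff.1 h with ⟨ha, hb⟩ | ⟨ha, hb⟩
  · rw [abs_of_pos ha] at hA
    rw [abs_of_neg hb] at hB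
    exact mul_neg_of_pos_of_neg (by linarith) (by linarith)
  · rw [abs_of_neg ha] at hA
    rw [abs_of_pos hb] at hB
    exact mul_neg_of_neg_of_pos (by linarith) (by linarith)

theorem to_vertex (hp : IsConvexPolygon p) (hG : Good p 𝓕) {f : ℂ × ℝ → ℝ}
    (hI : IsInvariantFun p f) (C : Set ℝ) :
    ∀ᵐ θ : ℝ, Op p 𝓕 f C θ → ∃ (w : List (Fin (n + 3))) (j : Fin (n + 3)),
      Pool.Agent.N681.BP.fda p w θ ∈ FX p 𝓕 f C j := by
  filter_upwards [Pool.Agent.N130.BP.t_allp n p hp, t_okae n p hp] with θ h2 h3 ⟨z0, hz0, ρ0, hρ0, hf0⟩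
  have hdd : conj (dir θ) * dir θ = 1 := Pool.Agent.N262.BP.conj_dir_mul θ
  obtain ⟨ρ1, hρ1, hball⟩ := Metric.isOpen_iff.1 (reg_open hp) z0 hz0
  obtain ⟨δ, hδ, hδ0, hδ1⟩ : ∃ δ : ℝ, 0 < δ ∧ 3 * δ ≤ ρ0 ∧ 3 * δ ≤ ρ1 :=
    ⟨min ρ0 ρ1 / 3, by positivity, by linarith [min_le_left ρ0 ρ1], by linarith [min_le_right ρ0 ρ1]⟩
  have hreg : ∀ y : ℂ, ‖y - z0‖ < 3 * δ → y ∈ reg p := fun y hy =>
    hball (by rw [mem_ball_iff_norm]; linarith)
  obtain ⟨z1, hz1, hz1b⟩ := (Measure.dense_of_ae h3).inter_nhds_nonempty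
    (Metric.ball_mem_nhds z0 hδ)
  rw [Metric.mem_ball, dist_eq_norm] at hz1b
  have hz1r : z1 ∈ reg p := hreg z1 (by linarith)
  obtain ⟨u, t, O⟩ := exists_orb hp (hz1 hz1r)
  obtain ⟨K, hW, j, hj, hjd⟩ :=
    Pool.Agent.N329.BP.t_first n p hp z1 θ u t O (h2 z1 hz1r u t O) δ hδ
  obtain ⟨w, hw⟩ : ∃ w, w = (List.range K).map u := ⟨_, rfl⟩
  have hfd : ∀ (z : ℂ) (s : ℝ), fp p w (z + s • dir θ) = srcs p z u K + s • dir (angs p θ u K) ∧
      Pool.Agent.N681.BP.fda p w θ = angs p θ u K := by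
    intro z s
    have h := fd_word hp z θ s u K
    rw [← hw, Pool.Agent.N681.BP.fd_eq, Prod.mk.injEq] at h
    exact h
  refine ⟨w, j, ?_⟩
  rw [(hfd 0 0).2, fx_iff]
  refine ⟨δ - |vd p z1 θ u K j|, by linarith, ?_⟩
  have hq : ∀ᶠ y : ℂ in 𝓕, ∀ q : ℚ, uf p w y - (q : ℝ) • dir θ ∈ reg p →
      ‖uf p w y - (q : ℝ) • dir θ - z0‖ < ρ0 → f (uf p w y - (q : ℝ) • dir θ, θ) ∈ C := by
    have := hG.cint
    rw [eventually_countable_forall]
    intro q
    have hmp : Tendsto (fun y : ℂ => uf p w y + -((q : ℝ) • dir θ)) 𝓕 𝓕 :=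
      (hG.add (-((q : ℝ) • dir θ))).comp (hG.uf w)
    filter_upwards [hmp.eventually hf0] with y hy
    rwa [← sub_eq_add_neg] at hy
  filter_upwards [hq] with y hy hyr hyn
  have huf : fp p w (uf p w y) = y := ((hR n p hp).2.2.2.2.2.2.1 w y).1
  -- distance from the line
  have hsd : ∀ s : ℝ, vd p (uf p w y - s • dir θ) θ u K j = sd p j (y, angs p θ u K) := by
    intro s
    have h4 := (hfd (uf p w y - s • dir θ) s).1
    rw [sub_add_cancel, huf] at h4
    have h5 := Pool.Agent.N262.BP.conj_dir_mul (angs p θ u K)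
    have key : ∀ X : ℂ, y = X + s • dir (angs p θ u K) →
        (conj (dir (angs p θ u K)) * (X - p j)).im = (conj (dir (angs p θ u K)) * (y - p j)).im := by
      intro X hX
      have h6 : conj (dir (angs p θ u K)) * (y - p j) = conj (dir (angs p θ u K)) *
          (X - p j) + (s : ℂ) := by
        rw [hX, real_smul]
        linear_combination (s : ℂ) * h5
      rw [h6, add_im, ofReal_im, add_zero]
    exact key _ h4
  have hsdn : |sd p j (y, angs p θ u K)| ≤ ‖y - p j‖ := by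
    unfold sd
    simp only
    refine (abs_im_le_norm _).trans ?_
    rw [norm_mul, RCLike.norm_conj, norm_dir, one_mul]
  have htv : ∀ s : ℝ, |tv θ (uf p w y - s • dir θ - z1)| < δ := by
    intro s
    have h4 := t_shift n p z1 (uf p w y - s • dir θ) θ u K j
    rw [hsd] at h4
    have h5 : |tv θ (uf p w y - s • dir θ - z1)| = |(-1) ^ K * tv θ (uf p w y - s • dir θ - z1)| := by
      rw [abs_mul, abs_pow, abs_neg, abs_one, one_pow, one_mul]
    rw [h5]
    have h6 : (-1) ^ K * tv θ (uf p w y - s • dir θ - z1) =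
        sd p j (y, angs p θ u K) - vd p z1 θ u K j := by
      linarith
    rw [h6]
    have h7 := abs_sub (sd p j (y, angs p θ u K)) (vd p z1 θ u K j)
    linarith
  -- a point of the line near `z1`
  set c : ℂ := conj (dir θ) * (uf p w y - z1) with hc
  have hcz : uf p w y - z1 = c * dir θ := by
    rw [hc]
    linear_combination (-(uf p w y - z1)) * hdd
  have hcim : |c.im| < δ := by
    have h4 := htv 0
    rw [zero_smul, sub_zero] at h4
    exact h4
  obtain ⟨q, hq1, hq2⟩ := exists_rat_btwn (show c.re < c.re + δ by linarith)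
  have hnorm : ‖uf p w y - (q : ℝ) • dir θ - z1‖ < 2 * δ := by
    have e : uf p w y - (q : ℝ) • dir θ - z1 = (c - (q : ℝ)) * dir θ := by
      rw [real_smul]
      linear_combination hcz
    rw [e, norm_mul, norm_dir, mul_one]
    refine (norm_le_abs_re_add_abs_im _).trans_lt ?_
    have e1 : (c - ((q : ℝ) : ℂ)).re = c.re - q := by simp
    have e2 : (c - ((q : ℝ) : ℂ)).im = c.im := by simp
    rw [e1, e2, abs_of_neg (by linarith)]
    linarith
  set z' : ℂ := uf p w y - (q : ℝ) • dir θ with hz'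
  have hz'0 : ‖z' - z0‖ < 3 * δ := by
    calc ‖z' - z0‖ = ‖(z' - z1) + (z1 - z0)‖ := by congr 1; ring
      _ ≤ ‖z' - z1‖ + ‖z1 - z0‖ := norm_add_le _ _
      _ < 3 * δ := by linarith
  have hz'r := hreg z' hz'0
  have hfz := hy q hz'r (by linarith)
  have hpos : srcs p z' u K + (q : ℝ) • dir (angs p θ u K) = y := by
    rw [← (hfd z' q).1, hz', sub_add_cancel, huf]
  have hopp := my_opp n p hp z1 θ u t O
  have hch : Ch p w (z' + (0 : ℝ) • dir θ) (z' + (q : ℝ) • dir θ) := by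
    rw [hw]
    refine ch_cross hp (by rw [zero_smul, add_zero]; exact hz'r) (fun m _ => sl_neg hp O m) ?_
      (by rw [hpos]; exact hyr)
    intro m hm
    obtain ⟨w1, w2⟩ := hW m hm
    have hd : |(-1) ^ m * tv θ (z' - z1)| < δ := by
      rw [abs_mul, abs_pow, abs_neg, abs_one, one_pow, one_mul]
      exact htv q
    rw [t_shift n p z1 z' θ u m (u m), t_shift n p z1 z' θ u m (u m + 1)]
    exact sign_keep (hopp m) w1 w2 hd
  rw [zero_smul, add_zero] at hch
  have hinv := inv_fun hp hI hz'r hch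
  have hfin : fd p w (z' + (q : ℝ) • dir θ, θ) = (y, angs p θ u K) := by
    rw [hw, fd_word hp, hpos]
  rw [hfin] at hinv
  rw [← hinv]
  exact hfz

/-- If, for a non-null set of directions, the values are in `C` on an open set, then there is a vertex
near which the values are in `C`, for almost all directions. -/
theorem vertex_of_open (hp : IsConvexPolygon p) (hirr : ∀ i, Irrational (ang p i / π))
    (hG : Good p 𝓕) {f : ℂ × ℝ → ℝ} (hI : IsInvariantFun p f) {C : Set ℝ}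
    (hf : Ms 𝓕 f C) (hpos : ¬ ∀ᵐ θ : ℝ, ¬ Op p 𝓕 f C θ) :
    ∃ i, ∀ᵐ θ : ℝ, θ ∈ FX p 𝓕 f C i := by
  by_contra hcon0
  have hcon : ∀ i, ¬ ∀ᵐ θ : ℝ, θ ∈ FX p 𝓕 f C i := fun i h => hcon0 ⟨i, h⟩
  apply hpos
  have hnull : ∀ j, ∀ᵐ θ : ℝ, θ ∉ FX p 𝓕 f C j := by
    intro j
    rcases dich hp hG hI hf (hirr j) with h | h
    · exact measure_eq_zero_iff_ae_notMem.1 h
    · exact absurd h (hcon j)
  have hw : ∀ᵐ θ : ℝ, ∀ (w : List (Fin (n + 3))) (j : Fin (n + 3)),
      Pool.Agent.N681.BP.fda p w θ ∉ FX p 𝓕 f C j := by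
    rw [ae_all_iff]
    intro w
    rw [ae_all_iff]
    intro j
    exact (Pool.Agent.N681.BP.mp_fda p w).quasiMeasurePreserving.ae (hnull j)
  filter_upwards [hw, to_vertex hp hG hI C] with θ h1 h2 h3
  obtain ⟨w, j, h4⟩ := h2 h3
  exact h1 w j h4

end Pool.Agent.U106.OX
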